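import Mathlib

/-!
Global existence for globally Lipschitz ODEs and a Gronwall type estimate for second order
equations with coefficients decaying like `(1+t)^{-3}`.
-/

set_option autoImplicit false

open MeasureTheory Set Filter Topology intervalIntegral

namespace Pool.Agent.Lib.MP_125cfc_an

lemma integral_exp_bound_pos {E : Type*} [NormedAddCommGroup E] [NormedSpace ℝ E]
    {g : ℝ → E} {B l : ℝ} (hl : 0 < l) (hg : ∀ s, ‖g s‖ ≤ B * Real.exp (l * |s|))
    (hB : 0 ≤ B) {t : ℝ} (ht : 0 ≤ t) :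
    ‖∫ s in (0:ℝ)..t, g s‖ ≤ B / l * Real.exp (l * |t|) := by
  have h1 : ‖∫ s in (0:ℝ)..t, g s‖ ≤ ∫ s in (0:ℝ)..t, B * Real.exp (l * s) := by
    apply intervalIntegral.norm_integral_le_of_norm_le ht
    · refine Filter.Eventually.of_forall ?_
      intro s hs
      have := hg s
      rwa [abs_of_pos hs.1] at this
    · apply Continuous.intervalIntegrable
      fun_prop
  have h2 : ∫ s in (0:ℝ)..t, B * Real.exp (l * s) = B / l * Real.exp (l * t) - B / l := by
    have : ∀ s ∈ uIcc (0:ℝ) t, HasDerivAt (fun s => B / l * Real.exp (l * s))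
        (B * Real.exp (l * s)) s := by
      intro s _
      have h := (((hasDerivAt_id s).const_mul l).exp).const_mul (B / l)
      refine h.congr_deriv ?_
      simp only [id]
      field_simp
    rw [intervalIntegral.integral_eq_sub_of_hasDerivAt this]
    · simp
    · apply Continuous.intervalIntegrable
      fun_prop
  rw [abs_of_nonneg ht]
  have : 0 ≤ B / l := by positivity
  linarith

lemma integral_exp_bound {E : Type*} [NormedAddCommGroup E] [NormedSpace ℝ E]
    {g : ℝ → E} {B l : ℝ} (hl : 0 < l) (hg : ∀ s, ‖g s‖ ≤ B * Real.exp (l * |s|))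
    (hB : 0 ≤ B) (t : ℝ) :
    ‖∫ s in (0:ℝ)..t, g s‖ ≤ B / l * Real.exp (l * |t|) := by
  rcases le_total 0 t with ht | ht
  · exact integral_exp_bound_pos hl hg hB ht
  · have h1 := integral_exp_bound_pos (g := fun s => g (-s)) (t := -t) hl
      (fun s => by simpa using hg (-s)) hB (by linarith)
    rw [intervalIntegral.integral_comp_neg, neg_zero, neg_neg,
      intervalIntegral.integral_symm, norm_neg, abs_neg] at h1
    exact h1

/-- global existence for a globally Lipschitz vector field vanishing at the origin -/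
theorem exists_global {E : Type*} [NormedAddCommGroup E] [NormedSpace ℝ E] [CompleteSpace E]
    (f : ℝ → E → E) (hf : Continuous (fun p : ℝ × E => f p.1 p.2)) {K : ℝ}
    (hK : ∀ t x y, ‖f t x - f t y‖ ≤ K * ‖x - y‖) (h0 : ∀ t, f t 0 = 0) (x0 : E) :
    ∃ x : ℝ → E, x 0 = x0 ∧ ∀ t, HasDerivAt x (f t (x t)) t := by
  have hnorm : ∀ t x, ‖f t x‖ ≤ |K| * ‖x‖ := by
    intro t x
    have h := hK t x 0
    rw [h0, sub_zero, sub_zero] at h
    exact h.trans (mul_le_mul_of_nonneg_right (le_abs_self K) (norm_nonneg _))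
  have hK' : ∀ t x y, ‖f t x - f t y‖ ≤ |K| * ‖x - y‖ := fun t x y =>
    (hK t x y).trans (mul_le_mul_of_nonneg_right (le_abs_self K) (norm_nonneg _))
  set l : ℝ := 2 * (|K| + 1) with hl
  have hKn : 0 ≤ |K| := abs_nonneg K
  have hlpos : 0 < l := by positivity
  -- integrand
  have hcont : ∀ u : BoundedContinuousFunction ℝ E,
      Continuous (fun s => f s (Real.exp (l * |s|) • u s)) := by
    intro u
    have h1 : Continuous (fun s : ℝ => (s, Real.exp (l * |s|) • u s)) := by
      have := u.continuous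
      fun_prop
    exact hf.comp h1
  have hint : ∀ u : BoundedContinuousFunction ℝ E,
      Continuous (fun t => ∫ s in (0:ℝ)..t, f s (Real.exp (l * |s|) • u s)) := by
    intro u
    exact intervalIntegral.continuous_primitive (fun a b => (hcont u).intervalIntegrable a b) 0
  have hTc : ∀ u : BoundedContinuousFunction ℝ E,
      Continuous (fun t => Real.exp (-(l * |t|)) •
        (x0 + ∫ s in (0:ℝ)..t, f s (Real.exp (l * |s|) • u s))) := by
    intro u
    have := hint u
    fun_prop
  have hexp : ∀ t : ℝ, Real.exp (-(l * |t|)) * Real.exp (l * |t|) = 1 := by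
    intro t; rw [← Real.exp_add]; simp
  have hexp1 : ∀ t : ℝ, Real.exp (-(l * |t|)) ≤ 1 := by
    intro t
    apply Real.exp_le_one_iff.2
    have : 0 ≤ l * |t| := by positivity
    linarith
  have hTb : ∀ u : BoundedContinuousFunction ℝ E, ∀ t,
      ‖Real.exp (-(l * |t|)) • (x0 + ∫ s in (0:ℝ)..t, f s (Real.exp (l * |s|) • u s))‖ ≤
        ‖x0‖ + |K| * ‖u‖ / l := by
    intro u t
    have h1 : ‖∫ s in (0:ℝ)..t, f s (Real.exp (l * |s|) • u s)‖ ≤
        |K| * ‖u‖ / l * Real.exp (l * |t|) := by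
      apply integral_exp_bound hlpos _ (by positivity)
      intro s
      refine (hnorm s _).trans ?_
      rw [norm_smul, Real.norm_eq_abs, abs_of_pos (Real.exp_pos _)]
      have := u.norm_coe_le_norm s
      have h2 : 0 ≤ |K| * Real.exp (l * |s|) := by positivity
      nlinarith
    rw [norm_smul, Real.norm_eq_abs, abs_of_pos (Real.exp_pos _)]
    have h3 : ‖x0 + ∫ s in (0:ℝ)..t, f s (Real.exp (l * |s|) • u s)‖ ≤
        ‖x0‖ + |K| * ‖u‖ / l * Real.exp (l * |t|) :=
      (norm_add_le _ _).trans (by linarith)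
    calc Real.exp (-(l * |t|)) * ‖x0 + ∫ s in (0:ℝ)..t, f s (Real.exp (l * |s|) • u s)‖
        ≤ Real.exp (-(l * |t|)) * (‖x0‖ + |K| * ‖u‖ / l * Real.exp (l * |t|)) :=
          mul_le_mul_of_nonneg_left h3 (Real.exp_pos _).le
      _ = Real.exp (-(l * |t|)) * ‖x0‖ + |K| * ‖u‖ / l *
            (Real.exp (-(l * |t|)) * Real.exp (l * |t|)) := by ring
      _ ≤ ‖x0‖ + |K| * ‖u‖ / l := by
          rw [hexp]
          have := mul_le_mul_of_nonneg_right (hexp1 t) (norm_nonneg x0)
          linarith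
  let T : BoundedContinuousFunction ℝ E → BoundedContinuousFunction ℝ E := fun u =>
    BoundedContinuousFunction.ofNormedAddCommGroup _ (hTc u) _ (hTb u)
  have hTval : ∀ u t, T u t = Real.exp (-(l * |t|)) •
      (x0 + ∫ s in (0:ℝ)..t, f s (Real.exp (l * |s|) • u s)) := fun u t => rfl
  have hlip : LipschitzWith (1/2 : NNReal) T := by
    apply LipschitzWith.of_dist_le_mul
    intro u w
    rw [BoundedContinuousFunction.dist_le (by positivity)]
    intro t
    rw [hTval, hTval, dist_eq_norm, ← smul_sub, add_sub_add_left_eq_sub,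
      ← intervalIntegral.integral_sub ((hcont u).intervalIntegrable _ _)
        ((hcont w).intervalIntegrable _ _)]
    have h1 : ‖∫ s in (0:ℝ)..t, (f s (Real.exp (l * |s|) • u s) -
        f s (Real.exp (l * |s|) • w s))‖ ≤ |K| * dist u w / l * Real.exp (l * |t|) := by
      apply integral_exp_bound hlpos _ (by positivity)
      intro s
      refine (hK' s _ _).trans ?_
      rw [← smul_sub, norm_smul, Real.norm_eq_abs, abs_of_pos (Real.exp_pos _)]
      have := BoundedContinuousFunction.dist_coe_le_dist (f := u) (g := w) s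
      rw [dist_eq_norm] at this
      have h2 : 0 ≤ |K| * Real.exp (l * |s|) := by positivity
      nlinarith
    rw [norm_smul, Real.norm_eq_abs, abs_of_pos (Real.exp_pos _)]
    calc Real.exp (-(l * |t|)) * ‖∫ s in (0:ℝ)..t, (f s (Real.exp (l * |s|) • u s) -
        f s (Real.exp (l * |s|) • w s))‖
        ≤ Real.exp (-(l * |t|)) * (|K| * dist u w / l * Real.exp (l * |t|)) :=
          mul_le_mul_of_nonneg_left h1 (Real.exp_pos _).le
      _ = |K| * dist u w / l * (Real.exp (-(l * |t|)) * Real.exp (l * |t|)) := by ring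
      _ = |K| * dist u w / l := by rw [hexp, mul_one]
      _ ≤ ((1/2 : NNReal) : ℝ) * dist u w := by
          rw [div_le_iff₀ hlpos, hl]
          push_cast
          have : 0 ≤ dist u w := dist_nonneg
          nlinarith
  have hcontr : ContractingWith (1/2 : NNReal) T := ⟨by
    rw [← NNReal.coe_lt_coe]; push_cast; norm_num, hlip⟩
  obtain ⟨u, hu⟩ : ∃ u, T u = u := ⟨_, hcontr.fixedPoint_isFixedPt⟩
  refine ⟨fun t => Real.exp (l * |t|) • u t, ?_, ?_⟩
  · have h := hTval u 0
    rw [hu] at h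
    simp only [h]
    simp
  · have hx : ∀ t, Real.exp (l * |t|) • u t =
        x0 + ∫ s in (0:ℝ)..t, f s (Real.exp (l * |s|) • u s) := by
      intro t
      have h := hTval u t
      rw [hu] at h
      rw [h, smul_smul, mul_comm, hexp, one_smul]
    intro t
    have h1 : HasDerivAt (fun t => x0 + ∫ s in (0:ℝ)..t, f s (Real.exp (l * |s|) • u s))
        (f t (Real.exp (l * |t|) • u t)) t := by
      have h2 := intervalIntegral.integral_hasDerivAt_right
        ((hcont u).intervalIntegrable 0 t)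
        ((hcont u).stronglyMeasurableAtFilter volume (𝓝 t)) (hcont u).continuousAt
      exact h2.const_add x0
    have h3 : (fun t => Real.exp (l * |t|) • u t) =
        (fun t => x0 + ∫ s in (0:ℝ)..t, f s (Real.exp (l * |s|) • u s)) := funext hx
    rw [h3]
    simpa only [← hx t] using h1

/-- global existence for second order equations -/
theorem exists_global_two {E : Type*} [NormedAddCommGroup E] [NormedSpace ℝ E] [CompleteSpace E]
    (G : ℝ → E → E) (hG : Continuous (fun p : ℝ × E => G p.1 p.2)) {L : ℝ}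
    (hL : ∀ t x y, ‖G t x - G t y‖ ≤ L * ‖x - y‖) (h0 : ∀ t, G t 0 = 0) (A B : E) :
    ∃ X V : ℝ → E, X 0 = A ∧ V 0 = B ∧ (∀ t, HasDerivAt X (V t) t) ∧
      ∀ t, HasDerivAt V (G t (X t)) t := by
  obtain ⟨x, hx0, hx⟩ := exists_global (E := E × E) (fun t p => (p.2, G t p.1))
    (by
      have h1 : Continuous (fun p : ℝ × (E × E) => G p.1 p.2.1) :=
        hG.comp (by fun_prop : Continuous (fun p : ℝ × (E × E) => (p.1, p.2.1)))
      fun_prop) (K := 1 + |L|)
    (by
      intro t x y
      rw [Prod.mk_sub_mk, Prod.norm_mk]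
      have h1 : ‖x.1 - y.1‖ ≤ ‖x - y‖ := norm_fst_le (x - y)
      have h2 : ‖x.2 - y.2‖ ≤ ‖x - y‖ := norm_snd_le (x - y)
      have h3 := hL t x.1 y.1
      have h4 : L * ‖x.1 - y.1‖ ≤ |L| * ‖x - y‖ := by
        have := le_abs_self L
        have h5 := norm_nonneg (x.1 - y.1)
        have := abs_nonneg L
        nlinarith
      have h6 : 0 ≤ |L| * ‖x - y‖ := by positivity
      have h7 := norm_nonneg (x - y)
      apply max_le
      · nlinarith
      · nlinarith)
    (by intro t; simp [h0]) (A, B)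
  refine ⟨fun t => (x t).1, fun t => (x t).2, by simp [hx0], by simp [hx0], ?_, ?_⟩
  · intro t
    exact (hasFDerivAt_fst (𝕜 := ℝ) (p := x t)).comp_hasDerivAt t (hx t)
  · intro t
    exact (hasFDerivAt_snd (𝕜 := ℝ) (p := x t)).comp_hasDerivAt t (hx t)

/-- Gronwall type estimate -/
theorem gron {E : Type*} [NormedAddCommGroup E] [NormedSpace ℝ E]
    {y v g : ℝ → E} {C ε δ : ℝ} (hC : 1 ≤ C) (hε : 0 ≤ ε)
    (hy : ∀ t, HasDerivAt y (v t) t) (hv : ∀ t, HasDerivAt v (g t) t) (hg : Continuous g)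
    (hb : ∀ t, 0 ≤ t → ‖g t‖ ≤ C * ‖y t‖ / (1 + t) ^ 3 + ε / (1 + t) ^ 2)
    (hy0 : y 0 = 0) (hv0 : ‖v 0‖ ≤ δ) {t : ℝ} (ht : 0 ≤ t) :
    ‖v t‖ ≤ (δ + ε) * Real.exp C ∧ ‖y t‖ ≤ (δ + ε) * Real.exp C * t := by
  have hδ : 0 ≤ δ := (norm_nonneg _).trans hv0
  set u : ℝ → ℝ := fun t => δ + ∫ s in (0:ℝ)..t, ‖g s‖ with hu
  have hu' : ∀ t, HasDerivAt u ‖g t‖ t := by
    intro t
    have h2 := intervalIntegral.integral_hasDerivAt_right
        (hg.norm.intervalIntegrable 0 t)
        (hg.norm.stronglyMeasurableAtFilter volume (𝓝 t)) hg.norm.continuousAt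
    exact h2.const_add δ
  have hu0 : u 0 = δ := by simp [hu]
  have hmono : Monotone u := monotone_of_hasDerivAt_nonneg hu' (fun t => norm_nonneg _)
  have h1 : ∀ t, 0 ≤ t → ‖v t‖ ≤ u t := by
    intro t ht
    exact image_norm_le_of_norm_deriv_right_le_deriv_boundary (a := 0) (b := t) (B := u)
      (fun s _ => (hv s).continuousAt.continuousWithinAt)
      (fun s _ => (hv s).hasDerivWithinAt) (by rw [hu0]; exact hv0)
      hu' (fun s _ => le_rfl) ⟨ht, le_rfl⟩
  have h2 : ∀ t, 0 ≤ t → ‖y t‖ ≤ u t * t := by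
    intro t ht
    have := norm_image_sub_le_of_norm_deriv_le_segment' (f := y) (f' := v) (a := 0) (b := t)
      (C := u t) (fun s _ => (hy s).hasDerivWithinAt)
      (fun s hs => (h1 s hs.1).trans (hmono hs.2.le)) t ⟨ht, le_rfl⟩
    simpa [hy0] using this
  have hunn : ∀ t, 0 ≤ t → 0 ≤ u t := fun t ht => by
    have := hmono ht
    rw [hu0] at this
    linarith
  -- the decreasing function
  set ψ : ℝ → ℝ := fun t => (u t + ε) * Real.exp (C / (1 + t)) with hψ
  have hψ' : ∀ t, 0 ≤ t → HasDerivAt ψ (‖g t‖ * Real.exp (C / (1 + t)) +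
      (u t + ε) * (Real.exp (C / (1 + t)) * (-C / (1 + t) ^ 2))) t := by
    intro t ht
    have h3 : HasDerivAt (fun t : ℝ => C / (1 + t)) (-C / (1 + t) ^ 2) t := by
      have h4 : HasDerivAt (fun t : ℝ => 1 + t) 1 t := by
        simpa using (hasDerivAt_id t).const_add 1
      have h5 := (hasDerivAt_const t C).fun_div h4 (by positivity)
      refine h5.congr_deriv ?_
      ring
    exact ((hu' t).add_const ε).mul h3.exp
  have hanti : AntitoneOn ψ (Ici 0) := by
    apply antitoneOn_of_deriv_nonpos (convex_Ici 0)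
    · intro s hs
      exact (hψ' s hs).continuousAt.continuousWithinAt
    · intro s hs
      rw [interior_Ici] at hs
      exact (hψ' s hs.le).differentiableAt.differentiableWithinAt
    · intro s hs
      rw [interior_Ici] at hs
      have hs0 : 0 ≤ s := le_of_lt hs
      rw [(hψ' s hs0).deriv]
      have hp : 0 < Real.exp (C / (1 + s)) := Real.exp_pos _
      have hkey : ‖g s‖ ≤ C * (u s + ε) / (1 + s) ^ 2 := by
        refine (hb s hs0).trans ?_
        have h6 : C * ‖y s‖ / (1 + s) ^ 3 ≤ C * u s / (1 + s) ^ 2 := by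
          have h7 := h2 s hs0
          have h8 := hunn s hs0
          rw [div_le_div_iff₀ (by positivity) (by positivity)]
          have h9 : ‖y s‖ ≤ u s * (1 + s) := by nlinarith
          calc C * ‖y s‖ * (1 + s) ^ 2 ≤ C * (u s * (1 + s)) * (1 + s) ^ 2 := by gcongr
            _ = C * u s * (1 + s) ^ 3 := by ring
        have h10 : ε / (1 + s) ^ 2 ≤ C * ε / (1 + s) ^ 2 := by
          gcongr
          nlinarith
        calc C * ‖y s‖ / (1 + s) ^ 3 + ε / (1 + s) ^ 2
            ≤ C * u s / (1 + s) ^ 2 + C * ε / (1 + s) ^ 2 := add_le_add h6 h10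
          _ = C * (u s + ε) / (1 + s) ^ 2 := by ring
      have : ‖g s‖ * Real.exp (C / (1 + s)) +
          (u s + ε) * (Real.exp (C / (1 + s)) * (-C / (1 + s) ^ 2)) =
          (‖g s‖ - C * (u s + ε) / (1 + s) ^ 2) * Real.exp (C / (1 + s)) := by ring
      rw [this]
      apply mul_nonpos_of_nonpos_of_nonneg _ hp.le
      linarith
  have hfin : u t ≤ (δ + ε) * Real.exp C := by
    have h3 := hanti (mem_Ici.2 le_rfl) (mem_Ici.2 ht) ht
    simp only [hψ, hu0, add_zero, div_one] at h3
    refine le_trans ?_ h3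
    have h4 : 1 ≤ Real.exp (C / (1 + t)) := Real.one_le_exp (by positivity)
    have h5 := hunn t ht
    nlinarith
  refine ⟨(h1 t ht).trans hfin, (h2 t ht).trans ?_⟩
  exact mul_le_mul_of_nonneg_right hfin ht

end Pool.Agent.Lib.MP_125cfc_an
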