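import Mathlib
import Pool.Agent.Lib.MP_125cfc_an.Ode

/-!
The hyperbolic Kepler motion of eccentricity `2` and the existence of a parameter for which the
perpendicular variational equation has a bounded (at infinity sublinear) odd solution.
-/

set_option autoImplicit false

open Set Filter Topology

namespace Pool.Agent.Lib.MP_125cfc_an

/-- `F` is the hyperbolic anomaly as function of time -/
structure IsAnomaly (F : ℝ → ℝ) : Prop where
  eq : ∀ t, 2 * Real.sinh (F t) - F t = t
  deriv : ∀ t, HasDerivAt F (1 / (2 * Real.cosh (F t) - 1)) t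

lemma exists_anomaly : ∃ F : ℝ → ℝ, IsAnomaly F := by
  set τ : ℝ → ℝ := fun x => 2 * Real.sinh x - x with hτ
  have hd : ∀ x, HasDerivAt τ (2 * Real.cosh x - 1) x := by
    intro x
    exact ((Real.hasDerivAt_sinh x).const_mul 2).fun_sub (hasDerivAt_id' x)
  have hpos : ∀ x : ℝ, 0 < 2 * Real.cosh x - 1 := by
    intro x
    have := Real.one_le_cosh x
    linarith
  have hmono : StrictMono τ := strictMono_of_hasDerivAt_pos hd hpos
  have hcont : Continuous τ := by fun_prop
  have htop : Tendsto τ atTop atTop := by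
    apply tendsto_atTop_mono' atTop _ tendsto_id
    filter_upwards [eventually_ge_atTop 0] with x hx
    have := Real.self_le_sinh_iff.2 hx
    simp only [id, hτ]
    linarith
  have hbot : Tendsto τ atBot atBot := by
    apply tendsto_atBot_mono' atBot _ tendsto_id
    filter_upwards [eventually_le_atBot 0] with x hx
    have := Real.sinh_le_self_iff.2 hx
    simp only [id, hτ]
    linarith
  have hsurj : Function.Surjective τ := hcont.surjective htop hbot
  let e : ℝ ≃o ℝ := hmono.orderIsoOfSurjective τ hsurj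
  have he : ∀ t, τ (e.symm t) = t := fun t => e.apply_symm_apply t
  refine ⟨fun t => e.symm t, he, ?_⟩
  intro t
  have := HasDerivAt.of_local_left_inverse (f := τ) (g := fun t => e.symm t) (a := t)
    (e.symm.continuous.continuousAt) (hd _) (hpos _).ne' (Eventually.of_forall he)
  simpa using this

namespace IsAnomaly

variable {F : ℝ → ℝ}

/-- distance from the origin -/
noncomputable def rr (F : ℝ → ℝ) (t : ℝ) : ℝ := 2 * Real.cosh (F t) - 1

lemma rr_ge_one (F : ℝ → ℝ) (t : ℝ) : 1 ≤ rr F t := by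
  have := Real.one_le_cosh (F t)
  unfold rr; linarith

lemma rr_pos (F : ℝ → ℝ) (t : ℝ) : 0 < rr F t := lt_of_lt_of_le one_pos (rr_ge_one F t)

lemma cont (h : IsAnomaly F) : Continuous F :=
  continuous_iff_continuousAt.2 fun t => (h.deriv t).continuousAt

lemma rr_cont (h : IsAnomaly F) : Continuous (rr F) := by
  have := h.cont
  unfold rr
  fun_prop

lemma rr_lower (h : IsAnomaly F) (t : ℝ) : (1 + |t|) / 3 ≤ rr F t := by
  have h1 := rr_ge_one F t
  have h2 : |t| ≤ rr F t + 1 := by
    have heq := h.eq t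
    have hc : Real.sinh (F t) < Real.cosh (F t) := Real.sinh_lt_cosh (F t)
    have hc' : Real.sinh (-F t) < Real.cosh (F t) := by
      have := Real.sinh_lt_cosh (-F t)
      rwa [Real.cosh_neg] at this
    rw [Real.sinh_neg] at hc'
    unfold rr
    rcases le_total 0 (F t) with h0 | h0
    · have h3 := Real.self_le_sinh_iff.2 h0
      rw [abs_le]; constructor <;> linarith
    · have h3 := Real.sinh_le_self_iff.2 h0
      rw [abs_le]; constructor <;> linarith
  rcases le_total (|t|) 2 with h3 | h3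
  · linarith
  · linarith

lemma zero (h : IsAnomaly F) : F 0 = 0 := by
  have heq := h.eq 0
  rcases lt_trichotomy (F 0) 0 with h0 | h0 | h0
  · have h3 := Real.sinh_le_self_iff.2 h0.le
    linarith
  · exact h0
  · have h3 := Real.self_le_sinh_iff.2 h0.le
    linarith

lemma strictMono (h : IsAnomaly F) : StrictMono F :=
  strictMono_of_hasDerivAt_pos h.deriv (fun t => by
    have := rr_pos F t
    unfold rr at this
    positivity)

lemma pos (h : IsAnomaly F) {t : ℝ} (ht : 0 < t) : 0 < F t := by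
  have := h.strictMono ht
  rwa [h.zero] at this

lemma deriv_rr (h : IsAnomaly F) (t : ℝ) :
    HasDerivAt (rr F) (2 * Real.sinh (F t) / rr F t) t := by
  have h1 := ((h.deriv t).cosh.const_mul 2).sub_const 1
  refine h1.congr_deriv ?_
  unfold rr
  ring

lemma deriv_cosh (h : IsAnomaly F) (t : ℝ) :
    HasDerivAt (fun t => Real.cosh (F t)) (Real.sinh (F t) / rr F t) t := by
  refine (h.deriv t).cosh.congr_deriv ?_
  unfold rr
  ring

lemma deriv_sinh (h : IsAnomaly F) (t : ℝ) :
    HasDerivAt (fun t => Real.sinh (F t)) (Real.cosh (F t) / rr F t) t := by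
  refine (h.deriv t).sinh.congr_deriv ?_
  unfold rr
  ring

/-- second derivative of `cosh F` -/
lemma deriv_x' (h : IsAnomaly F) (t : ℝ) :
    HasDerivAt (fun t => -(Real.sinh (F t) / rr F t))
      (-(2 - Real.cosh (F t)) / rr F t ^ 3) t := by
  have h1 := ((h.deriv_sinh t).fun_div (h.deriv_rr t) (rr_pos F t).ne').fun_neg
  refine h1.congr_deriv ?_
  have hr := (rr_pos F t).ne'
  have hc := Real.cosh_sq (F t)
  field_simp
  unfold rr
  ring_nf
  rw [hc]
  ring

lemma deriv_y' (h : IsAnomaly F) (t : ℝ) :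
    HasDerivAt (fun t => Real.cosh (F t) / rr F t)
      (-Real.sinh (F t) / rr F t ^ 3) t := by
  have h1 := ((h.deriv_cosh t).fun_div (h.deriv_rr t) (rr_pos F t).ne')
  refine h1.congr_deriv ?_
  have hr := (rr_pos F t).ne'
  field_simp
  unfold rr
  ring

/-- the test function `sinh F / r` -/
lemma deriv_phi (h : IsAnomaly F) (t : ℝ) :
    HasDerivAt (fun t => Real.sinh (F t) / rr F t)
      ((2 - Real.cosh (F t)) / rr F t ^ 3) t := by
  have h1 := (h.deriv_x' t).fun_neg
  simp only [neg_neg] at h1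
  refine h1.congr_deriv ?_
  ring

lemma deriv_phi' (h : IsAnomaly F) (t : ℝ) :
    HasDerivAt (fun t => (2 - Real.cosh (F t)) / rr F t ^ 3)
      (-(Real.sinh (F t) * (11 - 4 * Real.cosh (F t))) / rr F t ^ 5) t := by
  have h1 := ((h.deriv_cosh t).const_sub 2).fun_div ((h.deriv_rr t).fun_pow 3)
    (pow_ne_zero 3 (rr_pos F t).ne')
  refine h1.congr_deriv ?_
  have hr := (rr_pos F t).ne'
  field_simp
  unfold rr
  push_cast
  ring

lemma x_sq_le (F : ℝ → ℝ) (t : ℝ) :
    (2 - Real.cosh (F t)) ^ 2 + 3 * Real.sinh (F t) ^ 2 = rr F t ^ 2 := by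
  have hc := Real.cosh_sq (F t)
  unfold rr
  nlinarith

lemma abs_x_le (F : ℝ → ℝ) (t : ℝ) : |2 - Real.cosh (F t)| ≤ rr F t := by
  apply abs_le_of_sq_le_sq _ (rr_pos F t).le
  have := x_sq_le F t
  nlinarith [sq_nonneg (Real.sinh (F t))]

end IsAnomaly

open IsAnomaly

/-- `Z, Z'` solve the perpendicular variational equation with parameter `k` -/
structure IsVar (F : ℝ → ℝ) (k : ℝ) (Z Z' : ℝ → ℝ) : Prop where
  z0 : Z 0 = 0
  z0' : Z' 0 = 1
  d : ∀ t, HasDerivAt Z (Z' t) t
  d' : ∀ t, HasDerivAt Z' (-(1 + k) * Z t / rr F t ^ 3) t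

lemma exists_var {F : ℝ → ℝ} (h : IsAnomaly F) (k : ℝ) : ∃ Z Z' : ℝ → ℝ, IsVar F k Z Z' := by
  obtain ⟨X, V, hX0, hV0, hX, hV⟩ := exists_global_two (E := ℝ)
    (fun t x => -(1 + k) * x / rr F t ^ 3)
    (by
      have h1 := h.rr_cont
      have h2 : ∀ p : ℝ × ℝ, rr F p.1 ^ 3 ≠ 0 := fun p => pow_ne_zero 3 (rr_pos F p.1).ne'
      exact Continuous.div (by fun_prop) (by fun_prop) h2)
    (L := |1 + k|)
    (by
      intro t x y
      have h1 : 1 ≤ rr F t ^ 3 := one_le_pow₀ (rr_ge_one F t)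
      have h2 : -(1 + k) * x / rr F t ^ 3 - -(1 + k) * y / rr F t ^ 3 =
        -(1 + k) * (x - y) / rr F t ^ 3 := by ring
      rw [h2, Real.norm_eq_abs, Real.norm_eq_abs, abs_div, abs_mul, abs_neg,
        abs_of_pos (lt_of_lt_of_le one_pos h1)]
      exact div_le_self (by positivity) h1)
    (by intro t; simp) 0 1
  exact ⟨X, V, hX0, hV0, hX, hV⟩

namespace IsVar

variable {F : ℝ → ℝ} {k : ℝ} {Z Z' : ℝ → ℝ}

lemma cont (hz : IsVar F k Z Z') : Continuous Z :=
  continuous_iff_continuousAt.2 fun t => (hz.d t).continuousAt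

lemma cont' (hz : IsVar F k Z Z') : Continuous Z' :=
  continuous_iff_continuousAt.2 fun t => (hz.d' t).continuousAt

lemma cont'' (h : IsAnomaly F) (hz : IsVar F k Z Z') :
    Continuous (fun t => -(1 + k) * Z t / rr F t ^ 3) := by
  have h1 := h.rr_cont
  have h3 := hz.cont
  have h2 : ∀ p : ℝ, rr F p ^ 3 ≠ 0 := fun p => pow_ne_zero 3 (rr_pos F p).ne'
  exact Continuous.div (by fun_prop) (by fun_prop) h2

lemma inv_cube_le (h : IsAnomaly F) {t : ℝ} (ht : 0 ≤ t) :
    1 / rr F t ^ 3 ≤ 27 / (1 + t) ^ 3 := by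
  have h1 := h.rr_lower t
  rw [abs_of_nonneg ht] at h1
  rw [div_le_div_iff₀ (pow_pos (rr_pos F t) 3) (by positivity)]
  have : (1 + t) ≤ 3 * rr F t := by linarith
  calc 1 * (1 + t) ^ 3 ≤ (3 * rr F t) ^ 3 := by
        rw [one_mul]; exact pow_le_pow_left₀ (by linarith) this 3
    _ = 27 * rr F t ^ 3 := by ring

lemma abs_le (h : IsAnomaly F) (hz : IsVar F k Z Z') (hk0 : 0 ≤ k) (hk6 : k ≤ 6) {t : ℝ}
    (ht : 0 ≤ t) : |Z t| ≤ Real.exp 189 * t := by
  have := (gron (C := 189) (ε := 0) (δ := 1) (by norm_num) le_rfl hz.d hz.d' (hz.cont'' h)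
    (by
      intro s hs
      have h1 := inv_cube_le h hs
      rw [Real.norm_eq_abs, Real.norm_eq_abs, abs_div, abs_mul, abs_neg,
        abs_of_pos (pow_pos (rr_pos F s) 3), abs_of_nonneg (by linarith : 0 ≤ 1 + k)]
      simp only [zero_div, add_zero]
      have h2 : (1 + k) * |Z s| / rr F s ^ 3 = ((1 + k) * |Z s|) * (1 / rr F s ^ 3) := by ring
      rw [h2]
      calc ((1 + k) * |Z s|) * (1 / rr F s ^ 3) ≤ ((1 + k) * |Z s|) * (27 / (1 + s) ^ 3) := by
            have : 0 ≤ 1 + k := by linarith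
            gcongr
        _ ≤ (7 * |Z s|) * (27 / (1 + s) ^ 3) := by gcongr; linarith
        _ = 189 * |Z s| / (1 + s) ^ 3 := by ring)
    hz.z0 (by rw [hz.z0']; simp) ht).2
  simpa using this

lemma diff_le (h : IsAnomaly F) (hz : IsVar F k Z Z') (hk0 : 0 ≤ k) (hk6 : k ≤ 6)
    {l : ℝ} {Y Y' : ℝ → ℝ} (hy : IsVar F l Y Y') (hl0 : 0 ≤ l) (hl6 : l ≤ 6) {t : ℝ}
    (ht : 0 ≤ t) : |Z t - Y t| ≤ 27 * Real.exp 189 * Real.exp 189 * |k - l| * t := by
  have := (gron (y := fun t => Z t - Y t) (v := fun t => Z' t - Y' t)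
    (g := fun t => -(1 + k) * Z t / rr F t ^ 3 - -(1 + l) * Y t / rr F t ^ 3)
    (C := 189) (ε := 27 * Real.exp 189 * |k - l|) (δ := 0) (by norm_num)
    (by positivity) (fun t => (hz.d t).fun_sub (hy.d t)) (fun t => (hz.d' t).fun_sub (hy.d' t))
    ((hz.cont'' h).sub (hy.cont'' h))
    (by
      intro s hs
      have h1 := inv_cube_le h hs
      have h3 := hy.abs_le h hl0 hl6 hs
      have hr3 := pow_pos (rr_pos F s) 3
      have h2 : -(1 + k) * Z s / rr F s ^ 3 - -(1 + l) * Y s / rr F s ^ 3 =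
        -((1 + k) * (Z s - Y s) + (k - l) * Y s) * (1 / rr F s ^ 3) := by ring
      rw [h2, Real.norm_eq_abs, Real.norm_eq_abs, abs_mul, abs_neg,
        abs_of_pos (by positivity : 0 < 1 / rr F s ^ 3)]
      calc |(1 + k) * (Z s - Y s) + (k - l) * Y s| * (1 / rr F s ^ 3)
          ≤ |(1 + k) * (Z s - Y s) + (k - l) * Y s| * (27 / (1 + s) ^ 3) := by gcongr
        _ ≤ (7 * |Z s - Y s| + |k - l| * (Real.exp 189 * s)) * (27 / (1 + s) ^ 3) := by
            gcongr
            refine (abs_add_le _ _).trans ?_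
            rw [abs_mul, abs_mul, abs_of_nonneg (by linarith : 0 ≤ 1 + k)]
            gcongr
            linarith
        _ = 189 * |Z s - Y s| / (1 + s) ^ 3 +
            27 * Real.exp 189 * |k - l| * (s / (1 + s) ^ 3) := by ring
        _ ≤ 189 * |Z s - Y s| / (1 + s) ^ 3 + 27 * Real.exp 189 * |k - l| * (1 / (1 + s) ^ 2) := by
            gcongr 189 * |Z s - Y s| / (1 + s) ^ 3 + 27 * Real.exp 189 * |k - l| * ?_
            rw [div_le_div_iff₀ (by positivity) (by positivity)]
            nlinarith [sq_nonneg (1 + s)]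
        _ = 189 * |Z s - Y s| / (1 + s) ^ 3 + 27 * Real.exp 189 * |k - l| / (1 + s) ^ 2 := by
            ring)
    (by simp [hz.z0, hy.z0]) (by simp [hz.z0', hy.z0']) ht).2
  simp only [Real.norm_eq_abs] at this
  calc |Z t - Y t| ≤ _ := this
    _ = 27 * Real.exp 189 * Real.exp 189 * |k - l| * t := by ring

lemma anti (hz : IsVar F k Z Z') (hk0 : 0 ≤ k) (hpos : ∀ t, 0 < t → 0 ≤ Z t) :
    AntitoneOn Z' (Ici 0) := by
  apply antitoneOn_of_deriv_nonpos (convex_Ici 0) hz.cont'.continuousOn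
  · intro s _
    exact (hz.d' s).differentiableAt.differentiableWithinAt
  · intro s hs
    rw [interior_Ici] at hs
    rw [(hz.d' s).deriv]
    have h1 := hpos s hs
    have h2 := pow_pos (rr_pos F s) 3
    have : -(1 + k) * Z s / rr F s ^ 3 = -((1 + k) * Z s / rr F s ^ 3) := by ring
    rw [this]
    have : 0 ≤ (1 + k) * Z s / rr F s ^ 3 := by positivity
    linarith

lemma deriv_nonneg (hz : IsVar F k Z Z') (hk0 : 0 ≤ k) (hpos : ∀ t, 0 < t → 0 ≤ Z t)
    {a : ℝ} (ha : 0 ≤ a) : 0 ≤ Z' a := by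
  by_contra hneg
  have hneg : Z' a < 0 := not_le.1 hneg
  have hanti := hz.anti hk0 hpos
  -- choose t large
  set t : ℝ := a + 1 + (|Z a| + 1) / (-Z' a) with ht
  have hq : 0 < (|Z a| + 1) / (-Z' a) := by
    apply div_pos
    · positivity
    · linarith
  have hat : a < t := by rw [ht]; linarith
  have hmv : Z t - Z a ≤ Z' a * (t - a) := by
    refine Convex.image_sub_le_mul_sub_of_deriv_le (convex_Icc a t) hz.cont.continuousOn
      (fun s _ => (hz.d s).differentiableAt.differentiableWithinAt) ?_ a ⟨le_rfl, hat.le⟩ t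
      ⟨hat.le, le_rfl⟩ hat.le
    intro s hs
    rw [interior_Icc] at hs
    rw [(hz.d s).deriv]
    exact hanti (mem_Ici.2 ha) (mem_Ici.2 (ha.trans hs.1.le)) hs.1.le
  have h1 : Z' a * (t - a) = Z' a - (|Z a| + 1) := by
    rw [ht]
    have : Z' a ≠ 0 := hneg.ne
    have h2 : (|Z a| + 1) / (-Z' a) = -((|Z a| + 1) / Z' a) := by rw [div_neg]
    rw [h2]
    have h3 : Z' a * ((|Z a| + 1) / Z' a) = |Z a| + 1 := by field_simp
    linear_combination -h3
  have h2 := hpos t (lt_of_le_of_lt ha hat)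
  have h3 := le_abs_self (Z a)
  linarith

lemma strict_pos (hz : IsVar F k Z Z') (hk0 : 0 ≤ k) (hpos : ∀ t, 0 < t → 0 ≤ Z t)
    {t : ℝ} (ht : 0 < t) : 0 < Z t := by
  have hmono : MonotoneOn Z (Ici 0) := by
    apply monotoneOn_of_deriv_nonneg (convex_Ici 0) hz.cont.continuousOn
    · intro s _
      exact (hz.d s).differentiableAt.differentiableWithinAt
    · intro s hs
      rw [interior_Ici] at hs
      rw [(hz.d s).deriv]
      exact hz.deriv_nonneg hk0 hpos (le_of_lt hs)
  have hev : ∀ᶠ s in 𝓝 (0:ℝ), 0 < Z' s := by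
    apply hz.cont'.continuousAt.eventually
    rw [hz.z0']
    exact lt_mem_nhds one_pos
  obtain ⟨η, hη, hb⟩ := Metric.eventually_nhds_iff_ball.1 hev
  set s : ℝ := min (η / 2) t with hs
  have hs0 : 0 < s := lt_min (by linarith) ht
  have hsη : s < η := lt_of_le_of_lt (min_le_left _ _) (by linarith)
  have hstrict : StrictMonoOn Z (Icc 0 s) := by
    apply strictMonoOn_of_deriv_pos (convex_Icc 0 s) hz.cont.continuousOn
    intro u hu
    rw [interior_Icc] at hu
    rw [(hz.d u).deriv]
    apply hb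
    rw [Metric.mem_ball, Real.dist_eq, sub_zero, abs_of_pos hu.1]
    exact hu.2.trans hsη
  have h1 := hstrict ⟨le_rfl, hs0.le⟩ ⟨hs0.le, le_rfl⟩ hs0
  rw [hz.z0] at h1
  exact lt_of_lt_of_le h1 (hmono (mem_Ici.2 hs0.le) (mem_Ici.2 ht.le) (min_le_right _ _))

lemma le_self (hz : IsVar F k Z Z') (hk0 : 0 ≤ k) (hpos : ∀ t, 0 < t → 0 ≤ Z t)
    {t : ℝ} (ht : 0 ≤ t) : Z t ≤ t := by
  have hanti := hz.anti hk0 hpos
  have := Convex.image_sub_le_mul_sub_of_deriv_le (convex_Icc 0 t) (f := Z) (C := 1)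
      hz.cont.continuousOn
      (fun s _ => (hz.d s).differentiableAt.differentiableWithinAt) (by
        intro s hs
        rw [interior_Icc] at hs
        rw [(hz.d s).deriv, ← hz.z0']
        exact hanti (mem_Ici.2 le_rfl) (mem_Ici.2 hs.1.le) hs.1.le) 0 ⟨le_rfl, ht⟩ t
      ⟨ht, le_rfl⟩ ht
  rw [hz.z0] at this
  linarith

/-- Sturm comparison at `k = 6` -/
lemma not_pos_six (h : IsAnomaly F) (hz : IsVar F 6 Z Z') : ¬ ∀ t, 0 < t → 0 < Z t := by
  intro hpos
  have hpos' : ∀ t, 0 < t → 0 ≤ Z t := fun t ht => (hpos t ht).le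
  set W : ℝ → ℝ := fun t => Z t * ((2 - Real.cosh (F t)) / rr F t ^ 3) -
    Z' t * (Real.sinh (F t) / rr F t) with hW
  have hWd : ∀ t, HasDerivAt W (18 * Z t * Real.sinh (F t) * (Real.cosh (F t) - 1) /
      rr F t ^ 5) t := by
    intro t
    have h1 := ((hz.d t).fun_mul (h.deriv_phi' t)).fun_sub ((hz.d' t).fun_mul (h.deriv_phi t))
    refine h1.congr_deriv ?_
    have hr := (rr_pos F t).ne'
    field_simp
    unfold rr
    ring
  have hW0 : W 0 = 0 := by simp [hW, hz.z0, h.zero]
  have hWc : Continuous W := continuous_iff_continuousAt.2 fun t => (hWd t).continuousAt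
  have hstrict : StrictMonoOn W (Ici 0) := by
    apply strictMonoOn_of_deriv_pos (convex_Ici 0) hWc.continuousOn
    intro s hs
    rw [interior_Ici] at hs
    have hs : 0 < s := hs
    rw [(hWd s).deriv]
    have h1 := hpos s hs
    have h2 := h.pos hs
    have h3 := Real.sinh_pos_iff.2 h2
    have h4 := Real.one_lt_cosh.2 h2.ne'
    have h5 := rr_pos F s
    have h6 : 0 < Real.cosh (F s) - 1 := by linarith
    positivity
  have hW1 : 0 < W 1 := by
    have := hstrict (mem_Ici.2 le_rfl) (mem_Ici.2 zero_le_one) one_pos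
    rwa [hW0] at this
  have hup : ∀ t, 0 ≤ t → W t ≤ 9 / (1 + t) := by
    intro t ht
    have h1 : 0 ≤ Z' t * (Real.sinh (F t) / rr F t) := by
      have h2 := hz.deriv_nonneg (by norm_num) hpos' ht
      have h3 : 0 ≤ F t := by
        have := h.strictMono.monotone ht
        rwa [h.zero] at this
      have h4 := Real.sinh_nonneg_iff.2 h3
      have := rr_pos F t
      positivity
    have hZ0 : 0 ≤ Z t := by
      rcases ht.eq_or_lt with h | h
      · rw [← h, hz.z0]
      · exact hpos' t h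
    have h5 : Z t * ((2 - Real.cosh (F t)) / rr F t ^ 3) ≤ 9 / (1 + t) := by
      have h6 := hz.le_self (by norm_num) hpos' ht
      have h7 := (le_abs_self _).trans (abs_x_le F t)
      have h8 := h.rr_lower t
      rw [abs_of_nonneg ht] at h8
      have h9 := rr_pos F t
      calc Z t * ((2 - Real.cosh (F t)) / rr F t ^ 3) ≤ Z t * (rr F t / rr F t ^ 3) := by
            gcongr
        _ = Z t / rr F t ^ 2 := by field_simp
        _ ≤ (1 + t) / ((1 + t) / 3) ^ 2 := by
            gcongr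
            linarith
        _ = 9 / (1 + t) := by
            have : 1 + t ≠ 0 := by positivity
            field_simp
            norm_num
    simp only [hW]
    linarith
  -- contradiction at large time
  set t : ℝ := 1 + 9 / W 1 with ht
  have htpos : 0 < 9 / W 1 := by positivity
  have h1 : 1 ≤ t := by linarith
  have h2 := hstrict.monotoneOn (mem_Ici.2 zero_le_one) (mem_Ici.2 (zero_le_one.trans h1)) h1
  have h3 := hup t (zero_le_one.trans h1)
  have h4 : 9 / (1 + t) < W 1 := by
    rw [div_lt_iff₀ (by linarith)]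
    have : W 1 * (1 + t) = 2 * W 1 + 9 := by
      rw [ht]; field_simp; ring
    linarith
  linarith

end IsVar

/-- The main result of this file: for some `k` in `(0, 7)` the solution of the variational
equation is sublinear at infinity. -/
theorem exists_degenerate {F : ℝ → ℝ} (h : IsAnomaly F) :
    ∃ k : ℝ, 0 < k ∧ k < 7 ∧ ∃ Z Z' : ℝ → ℝ, IsVar F k Z Z' ∧
      Tendsto (fun t => Z t / t) atTop (𝓝 0) := by
  choose Z Z' hZ using exists_var h
  set P : Set ℝ := {k | 0 ≤ k ∧ k ≤ 6 ∧ ∀ t, 0 < t → 0 < Z k t} with hP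
  -- the case k = 0
  have hz0 : IsVar F 0 (fun t => Real.sinh (F t)) (fun t => Real.cosh (F t) / rr F t) := by
    refine ⟨by simp [h.zero], by simp [h.zero, rr]; norm_num, h.deriv_sinh, ?_⟩
    intro t
    refine (h.deriv_y' t).congr_deriv ?_
    ring
  have hZ0 : ∀ t, 0 ≤ t → Z 0 t = Real.sinh (F t) := by
    intro t ht
    have := (hZ 0).diff_le h le_rfl (by norm_num) hz0 le_rfl (by norm_num) ht
    simp only [sub_self, abs_zero, mul_zero, zero_mul] at this
    exact sub_eq_zero.1 (abs_nonpos_iff.1 this)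
  have h0P : (0:ℝ) ∈ P := by
    refine ⟨le_rfl, by norm_num, ?_⟩
    intro t ht
    rw [hZ0 t ht.le]
    exact Real.sinh_pos_iff.2 (h.pos ht)
  have hbdd : BddAbove P := ⟨6, fun k hk => hk.2.1⟩
  have h6P : (6:ℝ) ∉ P := fun hk => (hZ 6).not_pos_six h hk.2.2
  set c : ℝ := sSup P with hc
  have hc0 : 0 ≤ c := le_csSup hbdd h0P
  have hc6 : c ≤ 6 := csSup_le ⟨0, h0P⟩ (fun k hk => hk.2.1)
  set C1 : ℝ := 27 * Real.exp 189 * Real.exp 189 with hC1
  have hC1pos : 0 < C1 := by positivity
  have hcnn : ∀ t, 0 < t → 0 ≤ Z c t := by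
    intro t ht
    by_contra hneg
    have hneg : Z c t < 0 := not_le.1 hneg
    set η : ℝ := -Z c t / (C1 * t) with hη
    have hηpos : 0 < η := div_pos (by linarith) (by positivity)
    obtain ⟨k, hk, hck⟩ := exists_lt_of_lt_csSup ⟨0, h0P⟩ (show c - η < c by linarith)
    have hkc : k ≤ c := le_csSup hbdd hk
    have h1 := (hZ k).diff_le h hk.1 hk.2.1 (hZ c) hc0 hc6 ht.le
    have h2 : |k - c| < η := by rw [abs_of_nonpos (by linarith)]; linarith
    have h3 : C1 * |k - c| * t < C1 * η * t := by gcongr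
    have h4 : C1 * η * t = -Z c t := by
      rw [hη]; field_simp
    have h5 := hk.2.2 t ht
    have h6 := le_abs_self (Z k t - Z c t)
    rw [← hC1] at h1
    linarith
  have hcP : c ∈ P := ⟨hc0, hc6, fun t ht => (hZ c).strict_pos hc0 hcnn ht⟩
  have hclt : c < 6 := lt_of_le_of_ne hc6 (fun he => h6P (he ▸ hcP))
  -- no positive lower bound of the derivative
  have hinf : ∀ D, 0 < D → ∃ t, 0 ≤ t ∧ Z' c t < D := by
    intro D hD
    by_contra hcon
    push Not at hcon
    have hlow : ∀ t, 0 ≤ t → D * t ≤ Z c t := by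
      intro t ht
      have := Convex.mul_sub_le_image_sub_of_le_deriv (convex_Icc 0 t) (f := Z c) (C := D)
        (hZ c).cont.continuousOn
        (fun s _ => ((hZ c).d s).differentiableAt.differentiableWithinAt) (by
          intro s hs
          rw [interior_Icc] at hs
          rw [((hZ c).d s).deriv]
          exact hcon s hs.1.le) 0 ⟨le_rfl, ht⟩ t ⟨ht, le_rfl⟩ ht
      rw [(hZ c).z0] at this
      linarith
    set η : ℝ := min (D / (2 * C1)) (6 - c) with hη
    have hηpos : 0 < η := lt_min (by positivity) (by linarith)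
    have hk : c + η ∈ P := by
      have hk6 : c + η ≤ 6 := by
        have := min_le_right (D / (2 * C1)) (6 - c)
        linarith
      refine ⟨by linarith, hk6, ?_⟩
      intro t ht
      have h1 := (hZ (c + η)).diff_le h (by linarith) hk6 (hZ c) hc0 hc6 ht.le
      rw [add_sub_cancel_left, abs_of_pos hηpos, ← hC1] at h1
      have h2 : C1 * η * t ≤ D / 2 * t := by
        have h3 := min_le_left (D / (2 * C1)) (6 - c)
        rw [← hη] at h3
        have h4 : C1 * η ≤ D / 2 := by
          calc C1 * η ≤ C1 * (D / (2 * C1)) := by gcongr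
            _ = D / 2 := by field_simp
        gcongr
      have h5 := hlow t ht.le
      have h6 := neg_abs_le (Z (c + η) t - Z c t)
      have h7 : 0 < D * t := by positivity
      linarith
    have := le_csSup hbdd hk
    linarith
  have hanti := (hZ c).anti hc0 hcnn
  have hcne : c ≠ 0 := by
    intro hcz
    obtain ⟨t, ht, hlt⟩ := hinf (1/2) (by norm_num)
    -- compare with explicit solution for k = 0
    have hlow : ∀ s, 0 ≤ s → s / 2 ≤ Z c s := by
      intro s hs
      rw [hcz, hZ0 s hs]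
      have h1 : 0 ≤ F s := by
        have := h.strictMono.monotone hs
        rwa [h.zero] at this
      have h2 := h.eq s
      linarith
    -- but Z' c < 1/2 at t and antitone
    set D : ℝ := Z' c t with hD
    have hD0 : 0 ≤ D := (hZ c).deriv_nonneg hc0 hcnn ht
    set s : ℝ := t + 1 + (Z c t + 1) / (1 / 2 - D) with hs
    have hden : 0 < 1 / 2 - D := by linarith
    have hZt : 0 ≤ Z c t := by have := hlow t ht; linarith
    have hq : 0 < (Z c t + 1) / (1 / 2 - D) := by positivity
    have hts : t < s := by rw [hs]; linarith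
    have hmv : Z c s - Z c t ≤ D * (s - t) := by
      refine Convex.image_sub_le_mul_sub_of_deriv_le (convex_Icc t s)
        (hZ c).cont.continuousOn
        (fun s _ => ((hZ c).d s).differentiableAt.differentiableWithinAt) ?_ t ⟨le_rfl, hts.le⟩ s
        ⟨hts.le, le_rfl⟩ hts.le
      intro u hu
      rw [interior_Icc] at hu
      rw [((hZ c).d u).deriv]
      exact hanti (mem_Ici.2 ht) (mem_Ici.2 (ht.trans hu.1.le)) hu.1.le
    have h1 := hlow s (ht.trans hts.le)
    have h2 : (1 / 2 - D) * (s - t) = (1 / 2 - D) + (Z c t + 1) := by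
      have h3 : (1 / 2 - D) * ((Z c t + 1) / (1 / 2 - D)) = Z c t + 1 := by
        rw [mul_comm]; exact div_mul_cancel₀ _ hden.ne'
      rw [hs]
      linear_combination h3
    nlinarith
  refine ⟨c, lt_of_le_of_ne hc0 (Ne.symm hcne), by linarith, Z c, Z' c, hZ c, ?_⟩
  rw [Metric.tendsto_atTop]
  intro ε hε
  obtain ⟨a, ha, hlt⟩ := hinf (ε / 2) (by positivity)
  refine ⟨a + 1 + 2 * Z c a / ε, ?_⟩
  have hZa : 0 ≤ Z c a := by
    rcases ha.eq_or_lt with h | h
    · rw [← h, (hZ c).z0]
    · exact hcnn a h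
  intro t ht
  have hq : 0 ≤ 2 * Z c a / ε := by positivity
  have hat : a < t := by linarith
  have htpos : 0 < t := by linarith
  have hmv : Z c t - Z c a ≤ ε / 2 * (t - a) := by
    refine Convex.image_sub_le_mul_sub_of_deriv_le (convex_Icc a t)
      (hZ c).cont.continuousOn
      (fun s _ => ((hZ c).d s).differentiableAt.differentiableWithinAt) ?_ a ⟨le_rfl, hat.le⟩ t
      ⟨hat.le, le_rfl⟩ hat.le
    intro u hu
    rw [interior_Icc] at hu
    rw [((hZ c).d u).deriv]
    exact (hanti (mem_Ici.2 ha) (mem_Ici.2 (ha.trans hu.1.le)) hu.1.le).trans hlt.le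
  have hnn := hcnn t htpos
  rw [Real.dist_eq, sub_zero, abs_of_nonneg (by positivity), div_lt_iff₀ htpos]
  have h1 : 2 * Z c a / ε < t := by linarith
  rw [div_lt_iff₀ hε] at h1
  nlinarith

end Pool.Agent.Lib.MP_125cfc_an
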