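import Mathlib
import Pool.Agent.Lib.MP_125cfc_an.Kepler

/-!
The reduced (isosceles) problem with a cut-off of the singularity.
-/

set_option autoImplicit false
set_option linter.unusedSectionVars false

open Set Filter Topology MeasureTheory

namespace Pool.Agent.Lib.MP_125cfc_an

section Cut

variable {E : Type*} [NormedAddCommGroup E] [InnerProductSpace ℝ E]

/-- the cut-off Newtonian force `x / max(‖x‖, ρ)³` -/
noncomputable def kk (ρ : ℝ) (x : E) : E := (1 / (max ‖x‖ ρ) ^ 3) • x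

lemma nmax_lip (ρ : ℝ) (x y : E) : |max ‖x‖ ρ - max ‖y‖ ρ| ≤ ‖x - y‖ :=
  (abs_max_sub_max_le_abs _ _ _).trans (abs_norm_sub_norm_le x y)

lemma inv_cube_sub {ρ a b : ℝ} (hρ : 0 < ρ) (ha : ρ ≤ a) (hb : ρ ≤ b) :
    |1 / a ^ 3 - 1 / b ^ 3| * b ≤ 3 * |a - b| / ρ ^ 3 := by
  have ha0 : 0 < a := lt_of_lt_of_le hρ ha
  have hb0 : 0 < b := lt_of_lt_of_le hρ hb
  have h1 : 1 / a ^ 3 - 1 / b ^ 3 =
      (b - a) * ((1 / (a * b ^ 2) + 1 / (a ^ 2 * b) + 1 / a ^ 3) / b) := by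
    field_simp
    ring
  have h2 : 0 < (1 / (a * b ^ 2) + 1 / (a ^ 2 * b) + 1 / a ^ 3) := by positivity
  rw [h1, abs_mul, abs_of_pos (div_pos h2 hb0), abs_sub_comm b a, mul_assoc,
    div_mul_cancel₀ _ hb0.ne']
  have h3 : 1 / (a * b ^ 2) ≤ 1 / ρ ^ 3 := by
    apply one_div_le_one_div_of_le (by positivity)
    calc ρ ^ 3 = ρ * ρ ^ 2 := by ring
      _ ≤ a * b ^ 2 := by gcongr
  have h4 : 1 / (a ^ 2 * b) ≤ 1 / ρ ^ 3 := by
    apply one_div_le_one_div_of_le (by positivity)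
    calc ρ ^ 3 = ρ ^ 2 * ρ := by ring
      _ ≤ a ^ 2 * b := by gcongr
  have h5 : 1 / a ^ 3 ≤ 1 / ρ ^ 3 := by
    apply one_div_le_one_div_of_le (by positivity)
    gcongr
  calc |a - b| * (1 / (a * b ^ 2) + 1 / (a ^ 2 * b) + 1 / a ^ 3)
      ≤ |a - b| * (1 / ρ ^ 3 + 1 / ρ ^ 3 + 1 / ρ ^ 3) := by gcongr
    _ = 3 * |a - b| / ρ ^ 3 := by ring

lemma inv_cube_sub' {ρ a b : ℝ} (hρ : 0 < ρ) (ha : ρ ≤ a) (hb : ρ ≤ b) :
    |1 / a ^ 3 - 1 / b ^ 3| ≤ 3 * |a - b| / ρ ^ 4 := by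
  have h := inv_cube_sub hρ ha hb
  have h1 : |1 / a ^ 3 - 1 / b ^ 3| * ρ ≤ 3 * |a - b| / ρ ^ 3 :=
    (mul_le_mul_of_nonneg_left hb (abs_nonneg _)).trans h
  rw [le_div_iff₀ (by positivity)] at h1 ⊢
  calc |1 / a ^ 3 - 1 / b ^ 3| * ρ ^ 4 = |1 / a ^ 3 - 1 / b ^ 3| * ρ * ρ ^ 3 := by ring
    _ ≤ 3 * |a - b| := h1

lemma kk_lip {ρ : ℝ} (hρ : 0 < ρ) (x y : E) : ‖kk ρ x - kk ρ y‖ ≤ 4 / ρ ^ 3 * ‖x - y‖ := by
  set nx := max ‖x‖ ρ with hnx
  set ny := max ‖y‖ ρ with hny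
  have hx : ρ ≤ nx := le_max_right _ _
  have hy : ρ ≤ ny := le_max_right _ _
  have hx0 : 0 < nx := lt_of_lt_of_le hρ hx
  have h1 : kk ρ x - kk ρ y = (1 / nx ^ 3) • (x - y) + (1 / nx ^ 3 - 1 / ny ^ 3) • y := by
    unfold kk
    rw [smul_sub, sub_smul]
    abel
  rw [h1]
  refine (norm_add_le _ _).trans ?_
  rw [norm_smul, norm_smul, Real.norm_eq_abs, Real.norm_eq_abs,
    abs_of_pos (by positivity : 0 < 1 / nx ^ 3)]
  have h2 : 1 / nx ^ 3 ≤ 1 / ρ ^ 3 := by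
    apply one_div_le_one_div_of_le (by positivity)
    gcongr
  have h3 : |1 / nx ^ 3 - 1 / ny ^ 3| * ‖y‖ ≤ 3 * ‖x - y‖ / ρ ^ 3 := by
    calc |1 / nx ^ 3 - 1 / ny ^ 3| * ‖y‖ ≤ |1 / nx ^ 3 - 1 / ny ^ 3| * ny := by
          gcongr; exact le_max_left _ _
      _ ≤ 3 * |nx - ny| / ρ ^ 3 := inv_cube_sub hρ hx hy
      _ ≤ 3 * ‖x - y‖ / ρ ^ 3 := by
          gcongr
          exact nmax_lip ρ x y
  calc 1 / nx ^ 3 * ‖x - y‖ + |1 / nx ^ 3 - 1 / ny ^ 3| * ‖y‖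
      ≤ 1 / ρ ^ 3 * ‖x - y‖ + 3 * ‖x - y‖ / ρ ^ 3 := by gcongr
    _ = 4 / ρ ^ 3 * ‖x - y‖ := by ring

lemma kk_norm_le {ρ : ℝ} (hρ : 0 < ρ) (x : E) : ‖kk ρ x‖ ≤ 1 / ρ ^ 2 := by
  unfold kk
  set n := max ‖x‖ ρ with hn
  have h1 : ρ ≤ n := le_max_right _ _
  have h2 : ‖x‖ ≤ n := le_max_left _ _
  have h0 : 0 < n := lt_of_lt_of_le hρ h1
  rw [norm_smul, Real.norm_eq_abs, abs_of_pos (by positivity)]
  calc 1 / n ^ 3 * ‖x‖ ≤ 1 / n ^ 3 * n := by gcongr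
    _ = 1 / n ^ 2 := by field_simp
    _ ≤ 1 / ρ ^ 2 := by
        apply one_div_le_one_div_of_le (by positivity)
        gcongr

lemma kk_zero (ρ : ℝ) : kk ρ (0 : E) = 0 := by simp [kk]

/-- orthogonal projection to the axis -/
noncomputable def QQ (e : E) : E →L[ℝ] E := (innerSL ℝ e).smulRight e

/-- orthogonal projection along the axis -/
noncomputable def PP (e : E) : E →L[ℝ] E := ContinuousLinearMap.id ℝ E - QQ e

/-- reflection fixing `a` and reversing everything orthogonal to it -/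
noncomputable def RR (a : E) : E →L[ℝ] E := (2 : ℝ) • QQ a - ContinuousLinearMap.id ℝ E

lemma QQ_apply (e x : E) : QQ e x = (inner ℝ e x : ℝ) • e := by
  simp [QQ]

lemma PP_apply (e x : E) : PP e x = x - (inner ℝ e x : ℝ) • e := by
  simp [PP, QQ_apply]

lemma RR_apply (a x : E) : RR a x = (2 * inner ℝ a x : ℝ) • a - x := by
  simp [RR, QQ_apply, smul_smul]

lemma inner_PP {e : E} (he : ‖e‖ = 1) (x : E) : (inner ℝ e (PP e x) : ℝ) = 0 := by
  rw [PP_apply, inner_sub_right, inner_smul_right, real_inner_self_eq_norm_sq, he]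
  ring

lemma norm_sq_split {e : E} (he : ‖e‖ = 1) (x : E) :
    ‖x‖ ^ 2 = ‖PP e x‖ ^ 2 + (inner ℝ e x : ℝ) ^ 2 := by
  have h1 : x = PP e x + (inner ℝ e x : ℝ) • e := by rw [PP_apply]; abel
  have h2 : (inner ℝ (PP e x) e : ℝ) = 0 := by rw [real_inner_comm]; exact inner_PP he x
  conv_lhs => rw [h1]
  rw [norm_add_sq_real, inner_smul_right, h2, norm_smul, he, Real.norm_eq_abs,
    mul_one, sq_abs]
  ring

lemma norm_PP_le {e : E} (he : ‖e‖ = 1) (x : E) : ‖PP e x‖ ≤ ‖x‖ := by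
  have := norm_sq_split he x
  have h2 := sq_nonneg (inner ℝ e x : ℝ)
  exact abs_le_of_sq_le_sq' (by linarith) (norm_nonneg _) |>.2

lemma norm_QQ_le {e : E} (he : ‖e‖ = 1) (x : E) : ‖QQ e x‖ ≤ ‖x‖ := by
  rw [QQ_apply, norm_smul, he, mul_one, Real.norm_eq_abs]
  have := abs_real_inner_le_norm e x
  rwa [he, one_mul] at this

lemma norm_RR {a : E} (ha : ‖a‖ = 1) (x : E) : ‖RR a x‖ = ‖x‖ := by
  have h : ‖RR a x‖ ^ 2 = ‖x‖ ^ 2 := by
    rw [RR_apply, norm_sub_sq_real, norm_smul, ha, inner_smul_left, Real.norm_eq_abs, mul_one,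
      sq_abs]
    simp only [conj_trivial]
    ring
  exact (pow_left_inj₀ (norm_nonneg _) (norm_nonneg _) two_ne_zero).1 h

lemma PP_kk (e : E) (ρ : ℝ) (x : E) : PP e (kk ρ x) = (1 / (max ‖x‖ ρ) ^ 3) • PP e x := by
  unfold kk
  rw [map_smul]

lemma PP_PP {e : E} (he : ‖e‖ = 1) (x : E) : PP e (PP e x) = PP e x := by
  rw [PP_apply e (PP e x), inner_PP he]
  simp

lemma PP_QQ {e : E} (he : ‖e‖ = 1) (x : E) : PP e (QQ e x) = 0 := by
  rw [PP_apply, QQ_apply, inner_smul_right, real_inner_self_eq_norm_sq, he]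
  simp

lemma inner_QQ {e : E} (he : ‖e‖ = 1) (x : E) : (inner ℝ e (QQ e x) : ℝ) = inner ℝ e x := by
  rw [QQ_apply, inner_smul_right, real_inner_self_eq_norm_sq, he]
  ring

lemma QQ_RR {a e : E} (hae : (inner ℝ a e : ℝ) = 0) (x : E) : QQ e (RR a x) = RR a (QQ e x) := by
  have hea : (inner ℝ e a : ℝ) = 0 := by rw [real_inner_comm]; exact hae
  rw [QQ_apply, RR_apply, RR_apply, QQ_apply, inner_sub_right, inner_smul_right,
    inner_smul_right, hea, hae]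
  simp

lemma PP_RR {a e : E} (hae : (inner ℝ a e : ℝ) = 0) (x : E) : PP e (RR a x) = RR a (PP e x) := by
  have h := QQ_RR hae x
  simp only [PP, _root_.sub_apply, ContinuousLinearMap.id_apply, h, map_sub]

lemma kk_RR {a : E} (ha : ‖a‖ = 1) (ρ : ℝ) (x : E) : kk ρ (RR a x) = RR a (kk ρ x) := by
  unfold kk
  rw [norm_RR ha, map_smul]

/-- the cut-off radius -/
noncomputable def rho (t : ℝ) : ℝ := (1 + |t|) / 6

lemma rho_pos (t : ℝ) : 0 < rho t := by unfold rho; positivity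

/-- cut-off reduced force -/
noncomputable def GG (e : E) (M m : ℝ) (t : ℝ) (x : E) : E :=
  -(M • kk (rho t) x + (m / 4) • kk (rho t) (PP e x) + (2 * m) • QQ e (kk (rho t) x))

lemma continuous_kk_comp {T : Type*} [TopologicalSpace T] {u : T → ℝ} {x : T → E}
    (hu : Continuous u) (hx : Continuous x) : Continuous (fun t => kk (rho (u t)) (x t)) := by
  have h1 : Continuous (fun t => (max ‖x t‖ (rho (u t))) ^ 3) := by
    unfold rho
    fun_prop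
  have h2 : ∀ t, (max ‖x t‖ (rho (u t))) ^ 3 ≠ 0 := fun t =>
    pow_ne_zero 3 (lt_of_lt_of_le (rho_pos (u t)) (le_max_right _ _)).ne'
  exact (continuous_const.div h1 h2).smul hx

lemma continuous_GG_comp {T : Type*} [TopologicalSpace T] {u : T → ℝ} {x : T → E}
    (hu : Continuous u) (hx : Continuous x) (e : E) (M m : ℝ) :
    Continuous (fun t => GG e M m (u t) (x t)) := by
  have h1 := continuous_kk_comp hu hx
  have h2 := continuous_kk_comp hu ((PP e).continuous.comp hx)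
  have h3 : Continuous (fun t => QQ e (kk (rho (u t)) (x t))) := (QQ e).continuous.comp h1
  unfold GG
  exact (((h1.const_smul M).add (h2.const_smul (m / 4))).add (h3.const_smul (2 * m))).neg

lemma continuous_GG (e : E) (M m : ℝ) : Continuous (fun p : ℝ × E => GG e M m p.1 p.2) :=
  continuous_GG_comp continuous_fst continuous_snd e M m

lemma GG_zero (e : E) (M m t : ℝ) : GG e M m t 0 = 0 := by
  simp [GG, kk_zero]

lemma GG_lip {e : E} (he : ‖e‖ = 1) {M m : ℝ} (hM : 0 ≤ M) (hm : 0 ≤ m)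
    (hMm : M + m / 4 + 2 * m ≤ 9) (t : ℝ) (x y : E) :
    ‖GG e M m t x - GG e M m t y‖ ≤ 7776 * ‖x - y‖ / (1 + |t|) ^ 3 := by
  have hρ := rho_pos t
  have h1 := kk_lip hρ x y
  have h2 : ‖kk (rho t) (PP e x) - kk (rho t) (PP e y)‖ ≤ 4 / rho t ^ 3 * ‖x - y‖ := by
    refine (kk_lip hρ _ _).trans ?_
    rw [← map_sub]
    gcongr
    exact norm_PP_le he _
  have h3 : ‖QQ e (kk (rho t) x) - QQ e (kk (rho t) y)‖ ≤ 4 / rho t ^ 3 * ‖x - y‖ := by
    rw [← map_sub]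
    exact (norm_QQ_le he _).trans h1
  have h4 : GG e M m t x - GG e M m t y = -(M • (kk (rho t) x - kk (rho t) y) +
      (m / 4) • (kk (rho t) (PP e x) - kk (rho t) (PP e y)) +
      (2 * m) • (QQ e (kk (rho t) x) - QQ e (kk (rho t) y))) := by
    unfold GG
    simp only [smul_sub]
    abel
  rw [h4, norm_neg]
  have h5 : 4 / rho t ^ 3 * ‖x - y‖ = 864 * ‖x - y‖ / (1 + |t|) ^ 3 := by
    unfold rho
    have : 1 + |t| ≠ 0 := by positivity
    field_simp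
    ring
  calc ‖M • (kk (rho t) x - kk (rho t) y) +
      (m / 4) • (kk (rho t) (PP e x) - kk (rho t) (PP e y)) +
      (2 * m) • (QQ e (kk (rho t) x) - QQ e (kk (rho t) y))‖
      ≤ ‖M • (kk (rho t) x - kk (rho t) y)‖ +
        ‖(m / 4) • (kk (rho t) (PP e x) - kk (rho t) (PP e y))‖ +
        ‖(2 * m) • (QQ e (kk (rho t) x) - QQ e (kk (rho t) y))‖ := norm_add₃_le
    _ ≤ M * (4 / rho t ^ 3 * ‖x - y‖) + (m / 4) * (4 / rho t ^ 3 * ‖x - y‖) +
        (2 * m) * (4 / rho t ^ 3 * ‖x - y‖) := by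
        rw [norm_smul, norm_smul, norm_smul, Real.norm_eq_abs, Real.norm_eq_abs,
          Real.norm_eq_abs, abs_of_nonneg hM, abs_of_nonneg (by positivity : 0 ≤ m / 4),
          abs_of_nonneg (by positivity : 0 ≤ 2 * m)]
        gcongr
    _ = (M + m / 4 + 2 * m) * (864 * ‖x - y‖ / (1 + |t|) ^ 3) := by rw [h5]; ring
    _ ≤ 9 * (864 * ‖x - y‖ / (1 + |t|) ^ 3) := by gcongr
    _ = 7776 * ‖x - y‖ / (1 + |t|) ^ 3 := by ring

lemma GG_norm_le {e : E} (he : ‖e‖ = 1) {M m : ℝ} (hM : 0 ≤ M) (hm : 0 ≤ m)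
    (hMm : M + m / 4 + 2 * m ≤ 9) (t : ℝ) (x : E) :
    ‖GG e M m t x‖ ≤ 324 / (1 + |t|) ^ 2 := by
  have hρ := rho_pos t
  have h1 := kk_norm_le hρ x
  have h2 := kk_norm_le hρ (PP e x)
  have h3 := (norm_QQ_le he (kk (rho t) x)).trans h1
  have h5 : 1 / rho t ^ 2 = 36 / (1 + |t|) ^ 2 := by
    unfold rho
    have : 1 + |t| ≠ 0 := by positivity
    field_simp
    norm_num
  unfold GG
  rw [norm_neg]
  calc ‖M • kk (rho t) x + (m / 4) • kk (rho t) (PP e x) + (2 * m) • QQ e (kk (rho t) x)‖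
      ≤ ‖M • kk (rho t) x‖ + ‖(m / 4) • kk (rho t) (PP e x)‖ +
        ‖(2 * m) • QQ e (kk (rho t) x)‖ := norm_add₃_le
    _ ≤ M * (1 / rho t ^ 2) + (m / 4) * (1 / rho t ^ 2) + (2 * m) * (1 / rho t ^ 2) := by
        rw [norm_smul, norm_smul, norm_smul, Real.norm_eq_abs, Real.norm_eq_abs,
          Real.norm_eq_abs, abs_of_nonneg hM, abs_of_nonneg (by positivity : 0 ≤ m / 4),
          abs_of_nonneg (by positivity : 0 ≤ 2 * m)]
        gcongr
    _ = (M + m / 4 + 2 * m) * (36 / (1 + |t|) ^ 2) := by rw [h5]; ring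
    _ ≤ 9 * (36 / (1 + |t|) ^ 2) := by gcongr
    _ = 324 / (1 + |t|) ^ 2 := by ring

lemma GG_neg (e : E) (M m t : ℝ) (x : E) : GG e M m (-t) x = GG e M m t x := by
  simp [GG, rho]

lemma GG_RR {a e : E} (ha : ‖a‖ = 1) (hae : (inner ℝ a e : ℝ) = 0) (M m t : ℝ) (x : E) :
    GG e M m t (RR a x) = RR a (GG e M m t x) := by
  unfold GG
  rw [PP_RR hae, kk_RR ha, kk_RR ha, QQ_RR hae]
  simp only [map_neg, map_add, map_smul]

end Cut

end Pool.Agent.Lib.MP_125cfc_an
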