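import Mathlib
import Pool.Agent.Lib.MP_125cfc_an.Reduced

/-!
Perturbation of the homographic motion in the direction of the axis.
-/

set_option autoImplicit false
set_option linter.unusedSectionVars false

open Set Filter Topology MeasureTheory

namespace Pool.Agent.Lib.MP_125cfc_an

open IsAnomaly

variable {E : Type*} [NormedAddCommGroup E] [InnerProductSpace ℝ E]

/-- orthonormal triple -/
structure Frame (a b e : E) : Prop where
  ha : ‖a‖ = 1
  hb : ‖b‖ = 1
  he : ‖e‖ = 1
  hab : (inner ℝ a b : ℝ) = 0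
  hae : (inner ℝ a e : ℝ) = 0
  hbe : (inner ℝ b e : ℝ) = 0

/-- solutions of the cut-off reduced problem with the given initial data -/
structure IsSol (a b e : E) (M m ε : ℝ) (X V : ℝ → E) : Prop where
  x0 : X 0 = a
  v0 : V 0 = √3 • b + ε • e
  d : ∀ t, HasDerivAt X (V t) t
  d' : ∀ t, HasDerivAt V (GG e M m t (X t)) t

/-- parameters -/
structure Par (M m k : ℝ) : Prop where
  hM : 0 < M
  hm : 0 < m
  hMm : M + m / 4 = 1
  hk : M + 2 * m = 1 + k
  hk0 : 0 < k
  hk7 : k < 7

lemma Par.nine {M m k : ℝ} (p : Par M m k) : M + m / 4 + 2 * m ≤ 9 := by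
  have h1 := p.hM
  have h2 := p.hMm
  linarith

lemma Par.hM1 {M m k : ℝ} (p : Par M m k) : M ≤ 1 := by
  have h1 := p.hm
  have h2 := p.hMm
  linarith

variable {a b e : E} {M m k : ℝ} {F : ℝ → ℝ}

lemma exists_sol [CompleteSpace E] (fr : Frame a b e) (p : Par M m k) (ε : ℝ) :
    ∃ X V : ℝ → E, IsSol a b e M m ε X V := by
  obtain ⟨X, V, h1, h2, h3, h4⟩ := exists_global_two (GG e M m) (continuous_GG e M m)
    (L := 7776)
    (by
      intro t x y
      refine (GG_lip fr.he p.hM.le p.hm.le p.nine t x y).trans ?_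
      apply div_le_self (by positivity)
      exact one_le_pow₀ (by linarith [abs_nonneg t]))
    (GG_zero e M m) a (√3 • b + ε • e)
  exact ⟨X, V, h1, h2, h3, h4⟩

lemma IsSol.cont {ε : ℝ} {X V : ℝ → E} (hs : IsSol a b e M m ε X V) : Continuous X :=
  continuous_iff_continuousAt.2 fun t => (hs.d t).continuousAt

lemma IsSol.cont'' {ε : ℝ} {X V : ℝ → E} (hs : IsSol a b e M m ε X V) :
    Continuous (fun t => GG e M m t (X t)) :=
  continuous_GG_comp continuous_id hs.cont e M m

lemma IsSol.diff (fr : Frame a b e) (p : Par M m k) {ε ε' : ℝ} {X V X' V' : ℝ → E}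
    (h1 : IsSol a b e M m ε X V) (h2 : IsSol a b e M m ε' X' V') {t : ℝ} (ht : 0 ≤ t) :
    ‖X t - X' t‖ ≤ |ε - ε'| * Real.exp 7776 * t := by
  have := (gron (y := fun t => X t - X' t) (v := fun t => V t - V' t)
    (g := fun t => GG e M m t (X t) - GG e M m t (X' t)) (C := 7776) (ε := 0) (δ := |ε - ε'|)
    (by norm_num) le_rfl (fun t => (h1.d t).fun_sub (h2.d t)) (fun t => (h1.d' t).fun_sub (h2.d' t))
    (h1.cont''.sub h2.cont'')
    (by
      intro s hs
      have := GG_lip fr.he p.hM.le p.hm.le p.nine s (X s) (X' s)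
      rw [abs_of_nonneg hs] at this
      simpa using this)
    (by simp [h1.x0, h2.x0])
    (by
      rw [h1.v0, h2.v0, add_sub_add_left_eq_sub, ← sub_smul, norm_smul, fr.he, mul_one,
        Real.norm_eq_abs]) ht).2
  simpa using this

lemma RR_self (ha : ‖a‖ = 1) : RR a a = a := by
  rw [RR_apply, real_inner_self_eq_norm_sq, ha]
  simp [two_smul]

lemma RR_orth {x : E} (h : (inner ℝ a x : ℝ) = 0) : RR a x = -x := by
  rw [RR_apply, h]
  simp

lemma RR_RR (ha : ‖a‖ = 1) (x : E) : RR a (RR a x) = x := by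
  rw [RR_apply a (RR a x), RR_apply, inner_sub_right, inner_smul_right,
    real_inner_self_eq_norm_sq, ha, sub_sub_eq_add_sub]
  have : (2 * (2 * inner ℝ a x * 1 ^ 2 - inner ℝ a x) : ℝ) = 2 * inner ℝ a x := by ring
  rw [this]
  abel

lemma IsSol.reflect (fr : Frame a b e) {ε : ℝ} {X V : ℝ → E}
    (hs : IsSol a b e M m ε X V) :
    IsSol a b e M m ε (fun t => RR a (X (-t))) (fun t => -RR a (V (-t))) := by
  refine ⟨?_, ?_, ?_, ?_⟩
  · simp only [neg_zero, hs.x0]
    exact RR_self fr.ha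
  · simp only [neg_zero, hs.v0]
    rw [RR_orth, neg_neg]
    rw [inner_add_right, inner_smul_right, inner_smul_right, fr.hab, fr.hae]
    ring
  · intro t
    have h1 : HasDerivAt (fun t => X (-t)) (-V (-t)) t := by
      have := (hs.d (-t)).scomp t (hasDerivAt_neg t)
      simpa [Function.comp_def] using this
    have h2 := (RR a).hasFDerivAt.comp_hasDerivAt t h1
    rw [map_neg] at h2
    exact h2
  · intro t
    have h1 : HasDerivAt (fun t => V (-t)) (-GG e M m (-t) (X (-t))) t := by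
      have := (hs.d' (-t)).scomp t (hasDerivAt_neg t)
      simpa [Function.comp_def] using this
    have h2 := ((RR a).hasFDerivAt.comp_hasDerivAt t h1).neg
    rw [map_neg, neg_neg] at h2
    rw [GG_neg, ← GG_RR fr.ha fr.hae] at h2
    exact h2

lemma IsSol.symm (fr : Frame a b e) (p : Par M m k) {ε : ℝ} {X V : ℝ → E}
    (hs : IsSol a b e M m ε X V) (t : ℝ) : X (-t) = RR a (X t) := by
  have key : ∀ s, 0 ≤ s → X s = RR a (X (-s)) := by
    intro s hs0
    have := hs.diff fr p (hs.reflect fr) hs0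
    rw [sub_self, abs_zero, zero_mul, zero_mul] at this
    exact sub_eq_zero.1 (norm_le_zero_iff.1 this)
  rcases le_total 0 t with ht | ht
  · have := key t ht
    rw [this, RR_RR fr.ha]
  · have := key (-t) (by linarith)
    rw [neg_neg] at this
    exact this

/-- base solution -/
noncomputable def X0 (F : ℝ → ℝ) (a b : E) (t : ℝ) : E :=
  (2 - Real.cosh (F t)) • a + (√3 * Real.sinh (F t)) • b

/-- velocity of the base solution -/
noncomputable def V0 (F : ℝ → ℝ) (a b : E) (t : ℝ) : E :=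
  (-(Real.sinh (F t) / rr F t)) • a + (√3 * (Real.cosh (F t) / rr F t)) • b

lemma norm_X0 (fr : Frame a b e) (F : ℝ → ℝ) (t : ℝ) : ‖X0 F a b t‖ = rr F t := by
  have h : ‖X0 F a b t‖ ^ 2 = rr F t ^ 2 := by
    unfold X0
    rw [norm_add_sq_real, inner_smul_left, inner_smul_right, fr.hab, norm_smul, norm_smul,
      fr.ha, fr.hb, Real.norm_eq_abs, Real.norm_eq_abs, mul_one, mul_one, sq_abs, sq_abs,
      ← x_sq_le F t, mul_pow, Real.sq_sqrt (by norm_num)]
    ring
  exact (pow_left_inj₀ (norm_nonneg _) (rr_pos F t).le two_ne_zero).1 h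

lemma inner_X0 (fr : Frame a b e) (F : ℝ → ℝ) (t : ℝ) : (inner ℝ e (X0 F a b t) : ℝ) = 0 := by
  have h1 : (inner ℝ e a : ℝ) = 0 := by rw [real_inner_comm]; exact fr.hae
  have h2 : (inner ℝ e b : ℝ) = 0 := by rw [real_inner_comm]; exact fr.hbe
  unfold X0
  rw [inner_add_right, inner_smul_right, inner_smul_right, h1, h2]
  ring

lemma PP_X0 (fr : Frame a b e) (F : ℝ → ℝ) (t : ℝ) : PP e (X0 F a b t) = X0 F a b t := by
  rw [PP_apply, inner_X0 fr]
  simp

lemma rho_le (h : IsAnomaly F) (t : ℝ) : rho t ≤ rr F t := by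
  have h1 := h.rr_lower t
  have h2 := abs_nonneg t
  unfold rho
  linarith

lemma kk_X0 (fr : Frame a b e) (h : IsAnomaly F) (t : ℝ) :
    kk (rho t) (X0 F a b t) = (1 / rr F t ^ 3) • X0 F a b t := by
  unfold kk
  rw [norm_X0 fr, max_eq_left (rho_le h t)]

lemma QQ_X0 (fr : Frame a b e) (F : ℝ → ℝ) (t : ℝ) : QQ e (X0 F a b t) = 0 := by
  rw [QQ_apply, inner_X0 fr]
  simp

lemma GG_X0 (fr : Frame a b e) (h : IsAnomaly F) (p : Par M m k) (t : ℝ) :
    GG e M m t (X0 F a b t) = -((1 / rr F t ^ 3) • X0 F a b t) := by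
  unfold GG
  rw [PP_X0 fr, kk_X0 fr h, map_smul, QQ_X0 fr, smul_zero, smul_zero, add_zero, ← add_smul,
    p.hMm, one_smul]

lemma base_sol (fr : Frame a b e) (h : IsAnomaly F) (p : Par M m k) :
    IsSol a b e M m 0 (X0 F a b) (V0 F a b) := by
  refine ⟨?_, ?_, ?_, ?_⟩
  · simp only [X0, h.zero, Real.cosh_zero, Real.sinh_zero, mul_zero, zero_smul, add_zero]
    norm_num
  · simp only [V0, h.zero, Real.cosh_zero, Real.sinh_zero, rr, zero_smul, add_zero]
    norm_num
  · intro t
    have h1 := ((h.deriv_cosh t).const_sub 2).smul_const a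
    have h2 := ((h.deriv_sinh t).const_mul √3).smul_const b
    exact h1.fun_add h2
  · intro t
    have h1 := (h.deriv_x' t).smul_const a
    have h2 := ((h.deriv_y' t).const_mul √3).smul_const b
    refine (h1.fun_add h2).congr_deriv ?_
    rw [GG_X0 fr h p, X0, smul_add, smul_smul, smul_smul, neg_add, ← neg_smul, ← neg_smul]
    congr 2 <;> ring

lemma inner_GG (fr : Frame a b e) (t : ℝ) (x : E) :
    (inner ℝ e (GG e M m t x) : ℝ) = -(M + 2 * m) * inner ℝ e x / (max ‖x‖ (rho t)) ^ 3 := by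
  unfold GG
  rw [inner_neg_right, inner_add_right, inner_add_right, inner_smul_right, inner_smul_right,
    inner_smul_right, inner_QQ fr.he]
  unfold kk
  rw [inner_smul_right, inner_smul_right, inner_PP fr.he]
  ring

lemma IsSol.inner_deriv {ε : ℝ} {X V : ℝ → E} (hs : IsSol a b e M m ε X V) (t : ℝ) :
    HasDerivAt (fun t => (inner ℝ e (X t) : ℝ)) (inner ℝ e (V t)) t :=
  (innerSL ℝ e).hasFDerivAt.comp_hasDerivAt t (hs.d t)

lemma IsSol.inner_deriv' {ε : ℝ} {X V : ℝ → E} (hs : IsSol a b e M m ε X V) (t : ℝ) :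
    HasDerivAt (fun t => (inner ℝ e (V t) : ℝ)) (inner ℝ e (GG e M m t (X t))) t :=
  (innerSL ℝ e).hasFDerivAt.comp_hasDerivAt t (hs.d' t)

/-- the difference to the base solution, first order -/
lemma IsSol.first (fr : Frame a b e) (h : IsAnomaly F) (p : Par M m k) {ε : ℝ} {X V : ℝ → E}
    (hs : IsSol a b e M m ε X V) {t : ℝ} (ht : 0 ≤ t) :
    ‖X t - X0 F a b t‖ ≤ |ε| * Real.exp 7776 * t := by
  have := hs.diff fr p (base_sol fr h p) ht
  rwa [sub_zero] at this

lemma abs_inner_le (he : ‖e‖ = 1) (x : E) : |(inner ℝ e x : ℝ)| ≤ ‖x‖ := by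
  have := abs_real_inner_le_norm e x
  rwa [he, one_mul] at this

lemma IsSol.inner_le (fr : Frame a b e) (h : IsAnomaly F) (p : Par M m k) {ε : ℝ} {X V : ℝ → E}
    (hs : IsSol a b e M m ε X V) {t : ℝ} (ht : 0 ≤ t) :
    |(inner ℝ e (X t) : ℝ)| ≤ |ε| * Real.exp 7776 * t := by
  have h1 : (inner ℝ e (X t) : ℝ) = inner ℝ e (X t - X0 F a b t) := by
    rw [inner_sub_right, inner_X0 fr, sub_zero]
  rw [h1]
  exact (abs_inner_le fr.he _).trans (hs.first fr h p ht)

/-- estimate of the component along the axis -/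
lemma IsSol.axis (fr : Frame a b e) (h : IsAnomaly F) (p : Par M m k) {Z Z' : ℝ → ℝ}
    (hz : IsVar F k Z Z') {ε : ℝ} {X V : ℝ → E}
    (hs : IsSol a b e M m ε X V) {t : ℝ} (ht : 0 ≤ t) :
    |(inner ℝ e (X t) : ℝ) - ε * Z t| ≤
      31104 * Real.exp 7776 ^ 2 * ε ^ 2 * Real.exp 7776 * t := by
  have hgc : Continuous (fun t => (inner ℝ e (GG e M m t (X t)) : ℝ)) :=
    (innerSL ℝ e).continuous.comp hs.cont''
  have := (gron (y := fun t => (inner ℝ e (X t) : ℝ) - ε * Z t)
    (v := fun t => (inner ℝ e (V t) : ℝ) - ε * Z' t)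
    (g := fun t => (inner ℝ e (GG e M m t (X t)) : ℝ) - ε * (-(1 + k) * Z t / rr F t ^ 3))
    (C := 7776) (ε := 31104 * Real.exp 7776 ^ 2 * ε ^ 2) (δ := 0)
    (by norm_num) (by positivity)
    (fun t => (hs.inner_deriv t).fun_sub ((hz.d t).const_mul ε))
    (fun t => (hs.inner_deriv' t).fun_sub ((hz.d' t).const_mul ε))
    (hgc.sub (continuous_const.mul (hz.cont'' h)))
    (by
      intro s hs0
      have hρ := rho_pos s
      set n : ℝ := max ‖X s‖ (rho s) with hn
      have hnρ : rho s ≤ n := le_max_right _ _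
      have hrρ := rho_le h s
      have hr := rr_pos F s
      have h1 := inner_GG (M := M) (m := m) fr s (X s)
      rw [p.hk] at h1
      rw [h1]
      have h2 : -(1 + k) * (inner ℝ e (X s) : ℝ) / n ^ 3 - ε * (-(1 + k) * Z s / rr F s ^ 3) =
        -((1 + k) * ((inner ℝ e (X s) : ℝ) - ε * Z s) * (1 / rr F s ^ 3) +
          (1 + k) * (inner ℝ e (X s) : ℝ) * (1 / n ^ 3 - 1 / rr F s ^ 3)) := by ring
      have hk1 : 0 ≤ 1 + k := by linarith [p.hk0]
      have hk8 : 1 + k ≤ 8 := by linarith [p.hk7]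
      have h3 := IsVar.inv_cube_le h hs0
      have h4 := hs.inner_le fr h p hs0
      have h5 : |1 / n ^ 3 - 1 / rr F s ^ 3| ≤ 3 * (|ε| * Real.exp 7776 * s) / rho s ^ 4 := by
        refine (inv_cube_sub' hρ hnρ hrρ).trans ?_
        gcongr
        have h6 := nmax_lip (rho s) (X s) (X0 F a b s)
        rw [norm_X0 fr, max_eq_left hrρ] at h6
        exact h6.trans (hs.first fr h p hs0)
      rw [h2, norm_neg]
      refine (norm_add_le _ _).trans ?_
      simp only [Real.norm_eq_abs]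
      rw [abs_mul, abs_mul, abs_mul, abs_mul, abs_of_nonneg hk1,
        abs_of_pos (by positivity : 0 < 1 / rr F s ^ 3)]
      have h7 : (1 + k) * |(inner ℝ e (X s) : ℝ) - ε * Z s| * (1 / rr F s ^ 3) ≤
          7776 * |(inner ℝ e (X s) : ℝ) - ε * Z s| / (1 + s) ^ 3 := by
        calc (1 + k) * |(inner ℝ e (X s) : ℝ) - ε * Z s| * (1 / rr F s ^ 3)
            ≤ 8 * |(inner ℝ e (X s) : ℝ) - ε * Z s| * (27 / (1 + s) ^ 3) := by gcongr
          _ = 216 * |(inner ℝ e (X s) : ℝ) - ε * Z s| / (1 + s) ^ 3 := by ring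
          _ ≤ 7776 * |(inner ℝ e (X s) : ℝ) - ε * Z s| / (1 + s) ^ 3 := by gcongr; norm_num
      have h8 : (1 + k) * |(inner ℝ e (X s) : ℝ)| * |1 / n ^ 3 - 1 / rr F s ^ 3| ≤
          31104 * Real.exp 7776 ^ 2 * ε ^ 2 / (1 + s) ^ 2 := by
        calc (1 + k) * |(inner ℝ e (X s) : ℝ)| * |1 / n ^ 3 - 1 / rr F s ^ 3|
            ≤ 8 * (|ε| * Real.exp 7776 * s) * (3 * (|ε| * Real.exp 7776 * s) / rho s ^ 4) := by
              gcongr
          _ = 31104 * Real.exp 7776 ^ 2 * |ε| ^ 2 * (s ^ 2 / (1 + s) ^ 4) := by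
              unfold rho
              rw [abs_of_nonneg hs0]
              have : 1 + s ≠ 0 := by positivity
              field_simp
              ring
          _ ≤ 31104 * Real.exp 7776 ^ 2 * |ε| ^ 2 * (1 / (1 + s) ^ 2) := by
              gcongr 31104 * Real.exp 7776 ^ 2 * |ε| ^ 2 * ?_
              rw [div_le_div_iff₀ (by positivity) (by positivity)]
              have : s ^ 2 ≤ (1 + s) ^ 2 := by gcongr; linarith
              calc s ^ 2 * (1 + s) ^ 2 ≤ (1 + s) ^ 2 * (1 + s) ^ 2 := by gcongr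
                _ = 1 * (1 + s) ^ 4 := by ring
          _ = 31104 * Real.exp 7776 ^ 2 * ε ^ 2 / (1 + s) ^ 2 := by rw [sq_abs]; ring
      exact add_le_add h7 h8)
    (by
      have h1 : (inner ℝ e a : ℝ) = 0 := by rw [real_inner_comm]; exact fr.hae
      simp [hs.x0, hz.z0, h1])
    (by
      have h1 : (inner ℝ e b : ℝ) = 0 := by rw [real_inner_comm]; exact fr.hbe
      simp [hs.v0, hz.z0', inner_add_right, inner_smul_right, h1, fr.he]) ht).2
  simpa using this

lemma max_sq_sub {x y ρ z : ℝ} (hρ : 0 < ρ) (hy : 0 ≤ y) (hyx : y ≤ x)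
    (h : x ^ 2 = y ^ 2 + z ^ 2) : |max x ρ - max y ρ| ≤ z ^ 2 / (2 * ρ) := by
  have hmono : max y ρ ≤ max x ρ := max_le_max_right ρ hyx
  rw [abs_of_nonneg (by linarith), le_div_iff₀ (by positivity)]
  rcases le_total x ρ with h1 | h1
  · rw [max_eq_right h1, max_eq_right (hyx.trans h1)]
    nlinarith [sq_nonneg z]
  · rw [max_eq_left h1]
    rcases le_total y ρ with h2 | h2
    · rw [max_eq_right h2]
      nlinarith
    · rw [max_eq_left h2]
      nlinarith

lemma PP_GG (fr : Frame a b e) (t : ℝ) (x : E) :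
    PP e (GG e M m t x) = -(M • ((1 / (max ‖x‖ (rho t)) ^ 3) • PP e x) +
      (m / 4) • kk (rho t) (PP e x)) := by
  unfold GG
  rw [map_neg, map_add, map_add, map_smul, map_smul, map_smul, PP_QQ fr.he, PP_kk, PP_kk,
    PP_PP fr.he, smul_zero, add_zero]
  rfl

/-- estimate of the horizontal component -/
lemma IsSol.horiz (fr : Frame a b e) (h : IsAnomaly F) (p : Par M m k) {ε : ℝ} {X V : ℝ → E}
    (hs : IsSol a b e M m ε X V) {t : ℝ} (ht : 0 ≤ t) :
    ‖PP e (X t) - X0 F a b t‖ ≤ 1944 * Real.exp 7776 ^ 2 * ε ^ 2 * Real.exp 7776 * t := by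
  have hb := base_sol fr h p
  have := (gron (y := fun t => PP e (X t) - X0 F a b t)
    (v := fun t => PP e (V t) - V0 F a b t)
    (g := fun t => PP e (GG e M m t (X t)) - GG e M m t (X0 F a b t))
    (C := 7776) (ε := 1944 * Real.exp 7776 ^ 2 * ε ^ 2) (δ := 0)
    (by norm_num) (by positivity)
    (fun t => ((PP e).hasFDerivAt.comp_hasDerivAt t (hs.d t)).fun_sub (hb.d t))
    (fun t => ((PP e).hasFDerivAt.comp_hasDerivAt t (hs.d' t)).fun_sub (hb.d' t))
    (((PP e).continuous.comp hs.cont'').sub hb.cont'')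
    (by
      intro s hs0
      have hρ := rho_pos s
      set n : ℝ := max ‖X s‖ (rho s) with hn
      set n' : ℝ := max ‖PP e (X s)‖ (rho s) with hn'
      have hnρ : rho s ≤ n := le_max_right _ _
      have hnρ' : rho s ≤ n' := le_max_right _ _
      have hin := hs.inner_le fr h p hs0
      have h1 : PP e (GG e M m s (X s)) - GG e M m s (X0 F a b s) =
          -(M • ((1 / n ^ 3 - 1 / n' ^ 3) • PP e (X s)) +
            (kk (rho s) (PP e (X s)) - kk (rho s) (X0 F a b s))) := by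
        rw [PP_GG fr, GG_X0 fr h p, ← kk_X0 fr h]
        have h3 : (1 / n' ^ 3) • PP e (X s) = kk (rho s) (PP e (X s)) := rfl
        rw [sub_smul, h3, smul_sub]
        have hK : (m / 4) • kk (rho s) (PP e (X s)) =
            kk (rho s) (PP e (X s)) - M • kk (rho s) (PP e (X s)) := by
          have : (M + m / 4) • kk (rho s) (PP e (X s)) = kk (rho s) (PP e (X s)) := by
            rw [p.hMm, one_smul]
          rw [add_smul] at this
          exact eq_sub_of_add_eq' this
        rw [hK, ← hn]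
        abel
      rw [h1, norm_neg]
      refine (norm_add_le _ _).trans ?_
      have h6 : ‖kk (rho s) (PP e (X s)) - kk (rho s) (X0 F a b s)‖ ≤
          7776 * ‖PP e (X s) - X0 F a b s‖ / (1 + s) ^ 3 := by
        refine (kk_lip hρ _ _).trans ?_
        unfold rho
        rw [abs_of_nonneg hs0]
        have : 4 / ((1 + s) / 6) ^ 3 * ‖PP e (X s) - X0 F a b s‖ =
            864 * ‖PP e (X s) - X0 F a b s‖ / (1 + s) ^ 3 := by
          have : 1 + s ≠ 0 := by positivity
          field_simp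
          ring
        rw [this]
        gcongr
        norm_num
      have h7 : ‖M • ((1 / n ^ 3 - 1 / n' ^ 3) • PP e (X s))‖ ≤
          1944 * Real.exp 7776 ^ 2 * ε ^ 2 / (1 + s) ^ 2 := by
        rw [norm_smul, norm_smul, Real.norm_eq_abs, Real.norm_eq_abs, abs_of_pos p.hM]
        have h8 : |1 / n ^ 3 - 1 / n' ^ 3| * ‖PP e (X s)‖ ≤
            3 * ((|ε| * Real.exp 7776 * s) ^ 2 / (2 * rho s)) / rho s ^ 3 := by
          calc |1 / n ^ 3 - 1 / n' ^ 3| * ‖PP e (X s)‖ ≤ |1 / n ^ 3 - 1 / n' ^ 3| * n' := by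
                gcongr; exact le_max_left _ _
            _ ≤ 3 * |n - n'| / rho s ^ 3 := inv_cube_sub hρ hnρ hnρ'
            _ ≤ 3 * ((|ε| * Real.exp 7776 * s) ^ 2 / (2 * rho s)) / rho s ^ 3 := by
                gcongr
                refine (max_sq_sub hρ (norm_nonneg _) (norm_PP_le fr.he _)
                  (norm_sq_split fr.he (X s))).trans ?_
                have hsq : (inner ℝ e (X s) : ℝ) ^ 2 ≤ (|ε| * Real.exp 7776 * s) ^ 2 := by
                  rw [← sq_abs (inner ℝ e (X s) : ℝ)]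
                  gcongr
                exact div_le_div_of_nonneg_right hsq (by positivity)
        calc M * (|1 / n ^ 3 - 1 / n' ^ 3| * ‖PP e (X s)‖)
            ≤ 1 * (3 * ((|ε| * Real.exp 7776 * s) ^ 2 / (2 * rho s)) / rho s ^ 3) := by
              gcongr
              exact p.hM1
          _ = 1944 * Real.exp 7776 ^ 2 * |ε| ^ 2 * (s ^ 2 / (1 + s) ^ 4) := by
              unfold rho
              rw [abs_of_nonneg hs0]
              have : 1 + s ≠ 0 := by positivity
              field_simp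
              ring
          _ ≤ 1944 * Real.exp 7776 ^ 2 * |ε| ^ 2 * (1 / (1 + s) ^ 2) := by
              gcongr 1944 * Real.exp 7776 ^ 2 * |ε| ^ 2 * ?_
              rw [div_le_div_iff₀ (by positivity) (by positivity)]
              have : s ^ 2 ≤ (1 + s) ^ 2 := by gcongr; linarith
              calc s ^ 2 * (1 + s) ^ 2 ≤ (1 + s) ^ 2 * (1 + s) ^ 2 := by gcongr
                _ = 1 * (1 + s) ^ 4 := by ring
          _ = 1944 * Real.exp 7776 ^ 2 * ε ^ 2 / (1 + s) ^ 2 := by rw [sq_abs]; ring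
      rw [add_comm (7776 * ‖PP e (X s) - X0 F a b s‖ / (1 + s) ^ 3)]
      exact add_le_add h7 h6)
    (by
      have h1 := PP_X0 fr F 0
      have h2 := hb.x0
      rw [h2] at h1
      simp [hs.x0, h2, h1])
    (by
      have h1 : (inner ℝ e b : ℝ) = 0 := by rw [real_inner_comm]; exact fr.hbe
      have h2 := hb.v0
      rw [h2, hs.v0, PP_apply]
      simp [inner_add_right, inner_smul_right, h1, fr.he]) ht).2
  simpa using this

lemma IsSol.second (fr : Frame a b e) (h : IsAnomaly F) (p : Par M m k) {Z Z' : ℝ → ℝ}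
    (hz : IsVar F k Z Z') {ε : ℝ} {X V : ℝ → E}
    (hs : IsSol a b e M m ε X V) {t : ℝ} (ht : 0 ≤ t) :
    ‖X t - X0 F a b t - (ε * Z t) • e‖ ≤ 33048 * Real.exp 7776 ^ 3 * ε ^ 2 * t := by
  have h1 := hs.axis fr h p hz ht
  have h2 := hs.horiz fr h p ht
  have h3 : X t - X0 F a b t - (ε * Z t) • e =
      (PP e (X t) - X0 F a b t) + ((inner ℝ e (X t) : ℝ) - ε * Z t) • e := by
    rw [PP_apply, sub_smul]
    abel
  rw [h3]
  refine (norm_add_le _ _).trans ?_
  rw [norm_smul, fr.he, mul_one, Real.norm_eq_abs]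
  calc _ ≤ 1944 * Real.exp 7776 ^ 2 * ε ^ 2 * Real.exp 7776 * t +
        31104 * Real.exp 7776 ^ 2 * ε ^ 2 * Real.exp 7776 * t := add_le_add h2 h1
    _ = 33048 * Real.exp 7776 ^ 3 * ε ^ 2 * t := by ring

/-- no collision -/
lemma IsSol.lower (fr : Frame a b e) (h : IsAnomaly F) (p : Par M m k) {ε : ℝ} {X V : ℝ → E}
    (hs : IsSol a b e M m ε X V) (hε : |ε| * Real.exp 7776 ≤ 1 / 6) (t : ℝ) :
    rho t ≤ ‖PP e (X t)‖ := by
  have key : ∀ s, 0 ≤ s → rho s ≤ ‖PP e (X s)‖ := by
    intro s hs0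
    have h1 := hs.first fr h p hs0
    have h2 : ‖PP e (X s) - X0 F a b s‖ ≤ |ε| * Real.exp 7776 * s := by
      have : PP e (X s) - X0 F a b s = PP e (X s - X0 F a b s) := by rw [map_sub, PP_X0 fr]
      rw [this]
      exact (norm_PP_le fr.he _).trans h1
    have h3 : ‖X0 F a b s‖ - ‖PP e (X s)‖ ≤ ‖PP e (X s) - X0 F a b s‖ := by
      rw [norm_sub_rev]
      exact norm_sub_norm_le _ _
    rw [norm_X0 fr] at h3
    have h4 := h.rr_lower s
    rw [abs_of_nonneg hs0] at h4
    have h5 : |ε| * Real.exp 7776 * s ≤ 1 / 6 * s := by gcongr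
    unfold rho
    rw [abs_of_nonneg hs0]
    linarith
  rcases le_total 0 t with ht | ht
  · exact key t ht
  · have h1 := key (-t) (by linarith)
    rw [hs.symm fr p, PP_RR fr.hae, norm_RR fr.ha] at h1
    simpa [rho] using h1

end Pool.Agent.Lib.MP_125cfc_an
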