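import Mathlib
import Pool.Agent.Lib.MP_125cfc_an.Perturb

/-!
Asymptotic velocities of the reduced problem.
-/

set_option autoImplicit false
set_option linter.unusedSectionVars false

open Set Filter Topology MeasureTheory

namespace Pool.Agent.Lib.MP_125cfc_an

open IsAnomaly

lemma slope_limit {E : Type*} [NormedAddCommGroup E] [NormedSpace ℝ E] {X V : ℝ → E} {A : E}
    (hd : ∀ t, HasDerivAt X (V t) t) (hV : Tendsto V atTop (𝓝 A)) :
    Tendsto (fun t : ℝ => t⁻¹ • X t) atTop (𝓝 A) := by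
  rw [Metric.tendsto_atTop] at hV ⊢
  intro η hη
  obtain ⟨T0, hT0⟩ := hV (η / 2) (by positivity)
  set T : ℝ := max T0 1 with hT
  have hT1 : 1 ≤ T := le_max_right _ _
  have hTT : T0 ≤ T := le_max_left _ _
  set h : ℝ → E := fun t => X t - t • A with hh
  have hder : ∀ t, HasDerivAt h (V t - A) t := by
    intro t
    have h1 := (hasDerivAt_id' t).smul_const A
    rw [one_smul] at h1
    exact (hd t).fun_sub h1
  have hest : ∀ t, T ≤ t → ‖h t - h T‖ ≤ η / 2 * (t - T) := by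
    intro t ht
    exact norm_image_sub_le_of_norm_deriv_le_segment' (f := h) (f' := fun t => V t - A)
      (fun s _ => (hder s).hasDerivWithinAt) (fun s hs => by
        have := hT0 s (hTT.trans hs.1)
        rw [dist_eq_norm] at this
        exact this.le) t ⟨ht, le_rfl⟩
  refine ⟨T + 1 + 2 * ‖h T‖ / η, ?_⟩
  intro t ht
  have h0 : 0 ≤ 2 * ‖h T‖ / η := by positivity
  have htT : T ≤ t := by linarith
  have htpos : 0 < t := by linarith
  have h1 := hest t htT
  have h2 : t⁻¹ • X t - A = t⁻¹ • h t := by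
    rw [hh]
    simp only
    rw [smul_sub, smul_smul, inv_mul_cancel₀ htpos.ne', one_smul]
  rw [dist_eq_norm, h2, norm_smul, Real.norm_eq_abs, abs_of_pos (inv_pos.2 htpos),
    inv_mul_lt_iff₀ htpos]
  have h3 : ‖h t‖ ≤ ‖h T‖ + η / 2 * (t - T) := by
    have := norm_sub_norm_le (h t) (h T)
    linarith
  have h4 : 2 * ‖h T‖ / η < t := by linarith
  rw [div_lt_iff₀ hη] at h4
  nlinarith

lemma velocity_limit {E : Type*} [NormedAddCommGroup E] [NormedSpace ℝ E] [CompleteSpace E]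
    {V g : ℝ → E} {C : ℝ}
    (hv : ∀ t, HasDerivAt V (g t) t) (hg : Continuous g)
    (hb : ∀ t, 0 ≤ t → ‖g t‖ ≤ C / (1 + t) ^ 2) :
    ∃ A, Tendsto V atTop (𝓝 A) := by
  have hC : 0 ≤ C := by
    have := (norm_nonneg _).trans (hb 0 le_rfl)
    simpa using this
  have h1 : IntegrableOn (fun t : ℝ => C / (1 + t) ^ 2) (Ioi 0) := by
    apply integrableOn_Ioi_deriv_of_nonneg' (g := fun t => -C / (1 + t)) (l := 0)
    · intro t ht
      have ht : 0 ≤ t := ht
      have h4 : HasDerivAt (fun t : ℝ => 1 + t) 1 t := by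
        simpa using (hasDerivAt_id t).const_add 1
      have h5 := (hasDerivAt_const t (-C)).fun_div h4 (by positivity)
      refine h5.congr_deriv ?_
      ring
    · intro t _
      positivity
    · have : Tendsto (fun t : ℝ => 1 + t) atTop atTop :=
        tendsto_atTop_add_const_left _ _ tendsto_id
      exact Tendsto.div_atTop tendsto_const_nhds this
  have h2 : IntegrableOn g (Ioi 0) := by
    refine Integrable.mono' h1 hg.aestronglyMeasurable ?_
    rw [ae_restrict_iff' measurableSet_Ioi]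
    exact Eventually.of_forall fun t ht => hb t (le_of_lt ht)
  refine ⟨V 0 + ∫ t in Ioi 0, g t, ?_⟩
  have h3 := (intervalIntegral_tendsto_integral_Ioi 0 h2 tendsto_id).const_add (V 0)
  refine h3.congr ?_
  intro t
  have := intervalIntegral.integral_eq_sub_of_hasDerivAt (a := 0) (b := t)
    (fun s _ => hv s) (hg.intervalIntegrable _ _)
  simp only [id]
  rw [this]
  abel

variable {E : Type*} [NormedAddCommGroup E] [InnerProductSpace ℝ E]
variable {a b e : E} {M m k : ℝ} {F : ℝ → ℝ}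

lemma IsSol.exists_limit [CompleteSpace E] (fr : Frame a b e) (p : Par M m k) {ε : ℝ}
    {X V : ℝ → E} (hs : IsSol a b e M m ε X V) :
    ∃ A, Tendsto (fun t : ℝ => t⁻¹ • X t) atTop (𝓝 A) := by
  obtain ⟨A, hA⟩ := velocity_limit hs.d' hs.cont'' (C := 324) (fun t ht => by
    have := GG_norm_le fr.he p.hM.le p.hm.le p.nine t (X t)
    rwa [abs_of_nonneg ht] at this)
  exact ⟨A, slope_limit hs.d hA⟩

lemma IsSol.limit_bot (fr : Frame a b e) (p : Par M m k) {ε : ℝ}
    {X V : ℝ → E} (hs : IsSol a b e M m ε X V) {A : E}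
    (hA : Tendsto (fun t : ℝ => t⁻¹ • X t) atTop (𝓝 A)) :
    Tendsto (fun t : ℝ => |t|⁻¹ • X t) atBot (𝓝 (RR a A)) := by
  have h1 : Tendsto (fun t : ℝ => RR a (t⁻¹ • X t)) atTop (𝓝 (RR a A)) :=
    ((RR a).continuous.tendsto A).comp hA
  have h2 := h1.comp tendsto_neg_atBot_atTop
  refine h2.congr' ?_
  filter_upwards [eventually_lt_atBot 0] with t ht
  simp only [Function.comp]
  rw [map_smul, ← hs.symm fr p, neg_neg, abs_of_neg ht]

/-- the reduced equation -/
noncomputable def force (e : E) (M m : ℝ) (x : E) : E :=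
  -(M • ((1 / ‖x‖ ^ 3) • x) + (m / 4) • ((1 / ‖PP e x‖ ^ 3) • PP e x) +
    (2 * m) • QQ e ((1 / ‖x‖ ^ 3) • x))

lemma GG_eq_force (he : ‖e‖ = 1) {t : ℝ} {x : E} (h : rho t ≤ ‖PP e x‖) :
    GG e M m t x = force e M m x := by
  have h2 : rho t ≤ ‖x‖ := h.trans (norm_PP_le he x)
  unfold GG force kk
  rw [max_eq_left h, max_eq_left h2]

/-- a good solution of the reduced problem with its asymptotic velocity -/
structure GoodSol (a b e : E) (M m ε : ℝ) (X V : ℝ → E) (A : E) : Prop where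
  x0 : X 0 = a
  v0 : V 0 = √3 • b + ε • e
  d : ∀ t, HasDerivAt X (V t) t
  d' : ∀ t, HasDerivAt V (force e M m (X t)) t
  ne : ∀ t, PP e (X t) ≠ 0
  neA : PP e A ≠ 0
  top : Tendsto (fun t : ℝ => t⁻¹ • X t) atTop (𝓝 A)
  bot : Tendsto (fun t : ℝ => |t|⁻¹ • X t) atBot (𝓝 (RR a A))

/-- summary for the reduced problem -/
theorem reduced [CompleteSpace E] (fr : Frame a b e) :
    ∃ M m k : ℝ, Par M m k ∧ ∃ (C ε₀ : ℝ) (Y W : ℝ → E) (A₀ : E), 0 < ε₀ ∧
      GoodSol a b e M m 0 Y W A₀ ∧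
      ∀ ε, |ε| ≤ ε₀ → ∃ (X V : ℝ → E) (A : E),
        GoodSol a b e M m ε X V A ∧ ‖A - A₀‖ ≤ C * ε ^ 2 := by
  obtain ⟨F, h⟩ := exists_anomaly
  obtain ⟨k, hk0, hk7, Z, Z', hz, hlim⟩ := exists_degenerate h
  have p : Par (1 - k / 7) (4 * k / 7) k :=
    ⟨by linarith, by positivity, by ring, by ring, hk0, hk7⟩
  have hPA : ∀ {ε' : ℝ} {X V : ℝ → E} {A : E}, IsSol a b e (1 - k / 7) (4 * k / 7) ε' X V →
      |ε'| * Real.exp 7776 ≤ 1 / 6 → Tendsto (fun t : ℝ => t⁻¹ • X t) atTop (𝓝 A) →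
      PP e A ≠ 0 := by
    intro ε' X V A hs hε' hA h0
    have h1 : Tendsto (fun t : ℝ => ‖PP e (t⁻¹ • X t)‖) atTop (𝓝 ‖PP e A‖) :=
      (((PP e).continuous.norm).tendsto A).comp hA
    rw [h0, norm_zero] at h1
    have h2 : ∀ᶠ t : ℝ in atTop, 1 / 6 ≤ ‖PP e (t⁻¹ • X t)‖ := by
      filter_upwards [eventually_gt_atTop 0] with t ht
      rw [map_smul, norm_smul, Real.norm_eq_abs, abs_of_pos (inv_pos.2 ht)]
      have h3 := hs.lower fr h p hε' t
      unfold rho at h3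
      rw [abs_of_pos ht] at h3
      rw [inv_mul_eq_div, le_div_iff₀ ht]
      linarith
    have := ge_of_tendsto h1 h2
    linarith
  have hne : ∀ {ε' : ℝ} {X V : ℝ → E}, IsSol a b e (1 - k / 7) (4 * k / 7) ε' X V →
      |ε'| * Real.exp 7776 ≤ 1 / 6 → ∀ t, PP e (X t) ≠ 0 := by
    intro ε' X V hs hε' t h0
    have h1 := hs.lower fr h p hε' t
    have h2 := rho_pos t
    rw [h0, norm_zero] at h1
    linarith
  have hgood : ∀ {ε' : ℝ} {X V : ℝ → E} {A : E}, IsSol a b e (1 - k / 7) (4 * k / 7) ε' X V →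
      |ε'| * Real.exp 7776 ≤ 1 / 6 → Tendsto (fun t : ℝ => t⁻¹ • X t) atTop (𝓝 A) →
      GoodSol a b e (1 - k / 7) (4 * k / 7) ε' X V A := by
    intro ε' X V A hs hε' hA
    refine ⟨hs.x0, hs.v0, hs.d, ?_, hne hs hε', hPA hs hε' hA, hA, hs.limit_bot fr p hA⟩
    intro t
    rw [← GG_eq_force fr.he (hs.lower fr h p hε' t)]
    exact hs.d' t
  have hb := base_sol fr h p
  obtain ⟨A₀, hA₀⟩ := hb.exists_limit fr p
  have h0E : |(0:ℝ)| * Real.exp 7776 ≤ 1 / 6 := by norm_num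
  refine ⟨1 - k / 7, 4 * k / 7, k, p, 33048 * Real.exp 7776 ^ 3, 1 / (6 * Real.exp 7776),
    X0 F a b, V0 F a b, A₀, by positivity, hgood hb h0E hA₀, ?_⟩
  intro ε hε
  have hεE : |ε| * Real.exp 7776 ≤ 1 / 6 := by
    calc |ε| * Real.exp 7776 ≤ 1 / (6 * Real.exp 7776) * Real.exp 7776 := by gcongr
      _ = 1 / 6 := by
        have := (Real.exp_pos 7776).ne'
        field_simp
  obtain ⟨X, V, hs⟩ := exists_sol fr p ε
  obtain ⟨A, hA⟩ := hs.exists_limit fr p
  refine ⟨X, V, A, hgood hs hεE hA, ?_⟩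
  -- the limit estimate
  have h1 : Tendsto (fun t : ℝ => ‖(t⁻¹ • X t - t⁻¹ • X0 F a b t) - (ε * (Z t / t)) • e‖)
      atTop (𝓝 ‖(A - A₀) - (ε * 0) • e‖) := by
    apply Tendsto.norm
    exact (hA.sub hA₀).sub ((hlim.const_mul ε).smul_const e)
  rw [mul_zero, zero_smul, sub_zero] at h1
  apply le_of_tendsto h1
  filter_upwards [eventually_gt_atTop 0] with t ht
  have h2 := hs.second fr h p hz ht.le
  have h3 : (t⁻¹ • X t - t⁻¹ • X0 F a b t) - (ε * (Z t / t)) • e =
      t⁻¹ • (X t - X0 F a b t - (ε * Z t) • e) := by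
    rw [smul_sub, smul_sub, smul_smul]
    congr 2
    field_simp
  rw [h3, norm_smul, Real.norm_eq_abs, abs_of_pos (inv_pos.2 ht), inv_mul_le_iff₀ ht]
  linarith

end Pool.Agent.Lib.MP_125cfc_an
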