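import Mathlib
import Pool.Agent.Lib.MP_125cfc_an.Limits

/-!
Uniqueness of collision-free solutions of the `N`-body problem, and the translation of the reduced
problem to the three body problem.
-/

set_option autoImplicit false
set_option linter.unusedSectionVars false
set_option linter.unusedSimpArgs false

open Set Filter Topology MeasureTheory

namespace Pool.Agent.Lib.MP_125cfc_an

/-- Newtonian accelerations -/
noncomputable def acc {E : Type*} [NormedAddCommGroup E] [NormedSpace ℝ E] {N : ℕ} (m : Fin N → ℝ)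
    (x : Fin N → E) : Fin N → E :=
  fun i => ∑ j ∈ Finset.univ.erase i, (m j / ‖x j - x i‖ ^ 3) • (x j - x i)

lemma acc_lip {E : Type*} [NormedAddCommGroup E] [InnerProductSpace ℝ E] {N : ℕ}
    (m : Fin N → ℝ) {δ : ℝ} (hδ : 0 < δ) {x y : Fin N → E}
    (hx : ∀ i j, i ≠ j → δ ≤ ‖x i - x j‖) (hy : ∀ i j, i ≠ j → δ ≤ ‖y i - y j‖) :
    ‖acc m x - acc m y‖ ≤ (∑ j, |m j|) * (8 / δ ^ 3) * ‖x - y‖ := by
  rw [pi_norm_le_iff_of_nonneg (by positivity)]
  intro i
  have h1 : (acc m x - acc m y) i = ∑ j ∈ Finset.univ.erase i,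
      m j • (kk δ (x j - x i) - kk δ (y j - y i)) := by
    simp only [Pi.sub_apply, acc]
    rw [← Finset.sum_sub_distrib]
    apply Finset.sum_congr rfl
    intro j hj
    have hji : j ≠ i := Finset.ne_of_mem_erase hj
    have h2 := hx j i hji
    have h3 := hy j i hji
    unfold kk
    rw [max_eq_left h2, max_eq_left h3, smul_sub (m j), smul_smul, smul_smul, mul_one_div,
      mul_one_div]
  rw [h1]
  refine (norm_sum_le _ _).trans ?_
  have h4 : ∀ j ∈ Finset.univ.erase i, ‖m j • (kk δ (x j - x i) - kk δ (y j - y i))‖ ≤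
      |m j| * (8 / δ ^ 3 * ‖x - y‖) := by
    intro j _
    rw [norm_smul, Real.norm_eq_abs]
    apply mul_le_mul_of_nonneg_left _ (abs_nonneg _)
    refine (kk_lip hδ _ _).trans ?_
    have h5 : ‖x j - x i - (y j - y i)‖ ≤ 2 * ‖x - y‖ := by
      have h6 : x j - x i - (y j - y i) = (x - y) j - (x - y) i := by
        simp only [Pi.sub_apply]; abel
      rw [h6]
      have h7 := norm_le_pi_norm (x - y) j
      have h8 := norm_le_pi_norm (x - y) i
      have h9 := norm_sub_le ((x - y) j) ((x - y) i)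
      linarith
    calc 4 / δ ^ 3 * ‖x j - x i - (y j - y i)‖ ≤ 4 / δ ^ 3 * (2 * ‖x - y‖) := by gcongr
      _ = 8 / δ ^ 3 * ‖x - y‖ := by ring
  refine (Finset.sum_le_sum h4).trans ?_
  rw [← Finset.sum_mul, mul_assoc]
  apply mul_le_mul_of_nonneg_right _ (by positivity)
  exact Finset.sum_le_sum_of_subset_of_nonneg (Finset.erase_subset _ _)
    (fun j _ _ => abs_nonneg _)

lemma exists_lower {E : Type*} [NormedAddCommGroup E] [InnerProductSpace ℝ E] {N : ℕ}
    {γ : ℝ → Fin N → E} (hc : Continuous γ) (hne : ∀ t i j, i ≠ j → γ t i ≠ γ t j) (T : ℝ) :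
    ∃ δ > 0, ∀ t ∈ Icc (-T) T, ∀ i j, i ≠ j → δ ≤ ‖γ t i - γ t j‖ := by
  have hcont : ∀ i j, i ≠ j → Continuous (fun t => 1 / ‖γ t i - γ t j‖) := by
    intro i j hij
    have h1 : Continuous (fun t => ‖γ t i - γ t j‖) :=
      (((continuous_apply i).comp hc).sub ((continuous_apply j).comp hc)).norm
    exact continuous_const.div h1 (fun t => norm_ne_zero_iff.2 (sub_ne_zero.2 (hne t i j hij)))
  have hU : Continuous (fun t => ∑ i, ∑ j ∈ Finset.univ.erase i, 1 / ‖γ t i - γ t j‖) := by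
    apply continuous_finsetSum
    intro i _
    apply continuous_finsetSum
    intro j hj
    exact hcont i j (Finset.ne_of_mem_erase hj).symm
  obtain ⟨B, hB⟩ := isCompact_Icc.exists_bound_of_continuousOn (s := Icc (-T) T) hU.continuousOn
  refine ⟨1 / (|B| + 1), by positivity, ?_⟩
  intro t ht i j hij
  have h1 := hB t ht
  have hpos : 0 < ‖γ t i - γ t j‖ := norm_pos_iff.2 (sub_ne_zero.2 (hne t i j hij))
  have h2 : 1 / ‖γ t i - γ t j‖ ≤
      ∑ i, ∑ j ∈ Finset.univ.erase i, 1 / ‖γ t i - γ t j‖ := by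
    have h3 : 1 / ‖γ t i - γ t j‖ ≤ ∑ j ∈ Finset.univ.erase i, 1 / ‖γ t i - γ t j‖ :=
      Finset.single_le_sum (f := fun j => 1 / ‖γ t i - γ t j‖) (fun j _ => by positivity)
        (Finset.mem_erase.2 ⟨hij.symm, Finset.mem_univ j⟩)
    refine h3.trans ?_
    exact Finset.single_le_sum
      (f := fun i => ∑ j ∈ Finset.univ.erase i, 1 / ‖γ t i - γ t j‖)
      (fun i _ => Finset.sum_nonneg fun j _ => by positivity) (Finset.mem_univ i)
  have h4 : 1 / ‖γ t i - γ t j‖ ≤ |B| + 1 := by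
    have h5 := (le_abs_self _).trans h1
    have h6 := le_abs_self B
    linarith
  rw [div_le_iff₀ (by positivity)]
  rw [div_le_iff₀ hpos] at h4
  linarith

theorem nbody_unique {E : Type*} [NormedAddCommGroup E] [InnerProductSpace ℝ E] {N : ℕ}
    {m : Fin N → ℝ} {γ γ' η η' : ℝ → Fin N → E}
    (hγne : ∀ t i j, i ≠ j → γ t i ≠ γ t j) (hηne : ∀ t i j, i ≠ j → η t i ≠ η t j)
    (hγ : ∀ t, HasDerivAt γ (γ' t) t) (hγ' : ∀ t, HasDerivAt γ' (acc m (γ t)) t)
    (hη : ∀ t, HasDerivAt η (η' t) t) (hη' : ∀ t, HasDerivAt η' (acc m (η t)) t)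
    (h0 : γ 0 = η 0) (h0' : γ' 0 = η' 0) : γ = η := by
  have hcγ : Continuous γ := continuous_iff_continuousAt.2 fun t => (hγ t).continuousAt
  have hcη : Continuous η := continuous_iff_continuousAt.2 fun t => (hη t).continuousAt
  funext t
  set T : ℝ := |t| + 1 with hT
  have hTpos : 0 < T := by positivity
  have htT : t ∈ Ioo (-T) T := by
    rw [mem_Ioo, ← abs_lt]
    linarith
  obtain ⟨δ₁, hδ₁, h1⟩ := exists_lower hcγ hγne T
  obtain ⟨δ₂, hδ₂, h2⟩ := exists_lower hcη hηne T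
  set δ := min δ₁ δ₂ with hδ
  have hδpos : 0 < δ := lt_min hδ₁ hδ₂
  set K : ℝ := (∑ j, |m j|) * (8 / δ ^ 3) with hK
  have hKnn : 0 ≤ K := by positivity
  set s : Set ((Fin N → E) × (Fin N → E)) := {p | ∀ i j, i ≠ j → δ ≤ ‖p.1 i - p.1 j‖} with hs
  have key := ODE_solution_unique_of_mem_Ioo (E := (Fin N → E) × (Fin N → E))
    (v := fun _ p => (p.2, acc m p.1)) (s := fun _ => s) (K := (1 + K).toNNReal)
    (f := fun t => (γ t, γ' t)) (g := fun t => (η t, η' t)) (a := -T) (b := T) (t₀ := 0)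
    (by
      intro u _
      apply LipschitzOnWith.of_dist_le_mul
      intro p hp q hq
      rw [Real.coe_toNNReal _ (by positivity), dist_eq_norm, dist_eq_norm, Prod.mk_sub_mk,
        Prod.norm_mk]
      have h3 : ‖p.1 - q.1‖ ≤ ‖p - q‖ := norm_fst_le (p - q)
      have h4 : ‖p.2 - q.2‖ ≤ ‖p - q‖ := norm_snd_le (p - q)
      have h5 := acc_lip m hδpos hp hq
      rw [← hK] at h5
      have h6 : K * ‖p.1 - q.1‖ ≤ K * ‖p - q‖ := by gcongr
      have h7 := norm_nonneg (p - q)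
      apply max_le
      · nlinarith
      · nlinarith)
    ⟨by linarith, by linarith⟩
    (by
      intro u hu
      exact ⟨(hγ u).prodMk (hγ' u), fun i j hij =>
        (min_le_left _ _).trans (h1 u ⟨hu.1.le, hu.2.le⟩ i j hij)⟩)
    (by
      intro u hu
      exact ⟨(hη u).prodMk (hη' u), fun i j hij =>
        (min_le_right _ _).trans (h2 u ⟨hu.1.le, hu.2.le⟩ i j hij)⟩)
    (by simp [h0, h0'])
  have := key htT
  simpa using congrArg Prod.fst this

section Bodies

variable {E : Type*} [NormedAddCommGroup E] [InnerProductSpace ℝ E]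

/-- position of the central body -/
noncomputable def sh (e : E) (M m : ℝ) : E →L[ℝ] E := (-(2 * m / (M + 2 * m))) • QQ e

/-- positions of the three bodies -/
noncomputable def BB (e : E) (M m : ℝ) : E →L[ℝ] (Fin 3 → E) :=
  ContinuousLinearMap.pi
    ![ContinuousLinearMap.id ℝ E + sh e M m, sh e M m, RR e + sh e M m]

lemma BB_zero (e : E) (M m : ℝ) (x : E) : BB e M m x 0 = x + sh e M m x := rfl
lemma BB_one (e : E) (M m : ℝ) (x : E) : BB e M m x 1 = sh e M m x := rfl
lemma BB_two (e : E) (M m : ℝ) (x : E) : BB e M m x 2 = RR e x + sh e M m x := rfl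

lemma sh_apply (e : E) (M m : ℝ) (x : E) :
    sh e M m x = (-(2 * m / (M + 2 * m))) • QQ e x := rfl

lemma QQ_add_PP (e x : E) : QQ e x + PP e x = x := by
  rw [PP_apply, QQ_apply]; abel

lemma RR_eq (e x : E) : RR e x = QQ e x - PP e x := by
  rw [RR_apply, QQ_apply, PP_apply, mul_smul, two_smul]
  abel

lemma QQ_QQ {e : E} (he : ‖e‖ = 1) (x : E) : QQ e (QQ e x) = QQ e x := by
  rw [QQ_apply e (QQ e x), inner_QQ he, QQ_apply]

lemma QQ_PP {e : E} (he : ‖e‖ = 1) (x : E) : QQ e (PP e x) = 0 := by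
  rw [QQ_apply e (PP e x), inner_PP he]
  simp

lemma BB_sub01 (e : E) (M m : ℝ) (x : E) : BB e M m x 0 - BB e M m x 1 = x := by
  rw [BB_zero, BB_one]; abel

lemma BB_sub21 (e : E) (M m : ℝ) (x : E) : BB e M m x 2 - BB e M m x 1 = RR e x := by
  rw [BB_two, BB_one]; abel

lemma BB_sub02 (e : E) (M m : ℝ) (x : E) :
    BB e M m x 0 - BB e M m x 2 = (2 : ℝ) • PP e x := by
  rw [BB_zero, BB_two, RR_eq, two_smul]
  nth_rewrite 1 [← QQ_add_PP e x]
  abel

lemma BB_ne {e : E} (he : ‖e‖ = 1) (M m : ℝ) {x : E} (hx : PP e x ≠ 0) (i j : Fin 3)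
    (hij : i ≠ j) : BB e M m x i ≠ BB e M m x j := by
  have hx0 : x ≠ 0 := by
    rintro rfl
    simp at hx
  have h01 : BB e M m x 0 ≠ BB e M m x 1 := by
    rw [← sub_ne_zero, BB_sub01]; exact hx0
  have h21 : BB e M m x 2 ≠ BB e M m x 1 := by
    rw [← sub_ne_zero, BB_sub21, ← norm_ne_zero_iff, norm_RR he, norm_ne_zero_iff]; exact hx0
  have h02 : BB e M m x 0 ≠ BB e M m x 2 := by
    rw [← sub_ne_zero, BB_sub02]; exact smul_ne_zero two_ne_zero hx
  fin_cases i <;> fin_cases j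
  · exact absurd rfl hij
  · exact h01
  · exact h02
  · exact h01.symm
  · exact absurd rfl hij
  · exact h21.symm
  · exact h02.symm
  · exact h21
  · exact absurd rfl hij

lemma QQ_force {e : E} (he : ‖e‖ = 1) (M m : ℝ) (x : E) :
    QQ e (force e M m x) = (-(M + 2 * m) * (1 / ‖x‖ ^ 3)) • QQ e x := by
  unfold force
  simp only [map_neg, map_add, map_smul, QQ_QQ he, QQ_PP he, smul_zero, add_zero]
  module

lemma sh_force {e : E} (he : ‖e‖ = 1) {M m : ℝ} (hMm : M + 2 * m ≠ 0) (x : E) :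
    sh e M m (force e M m x) = (2 * m * (1 / ‖x‖ ^ 3)) • QQ e x := by
  rw [sh_apply, QQ_force he, smul_smul]
  congr 1
  field_simp

lemma BB_force {e : E} (he : ‖e‖ = 1) {M m : ℝ} (hMm : M + 2 * m ≠ 0) {x : E}
    (hx : PP e x ≠ 0) : BB e M m (force e M m x) = acc ![m, M, m] (BB e M m x) := by
  have hx0 : x ≠ 0 := by
    rintro rfl
    simp at hx
  have hn : ‖x‖ ≠ 0 := norm_ne_zero_iff.2 hx0
  have hnP : ‖PP e x‖ ≠ 0 := norm_ne_zero_iff.2 hx
  have h01 := BB_sub01 e M m x
  have h21 := BB_sub21 e M m x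
  have h02 := BB_sub02 e M m x
  have h10 : BB e M m x 1 - BB e M m x 0 = -x := by
    have := congrArg Neg.neg h01
    rwa [neg_sub] at this
  have h12 : BB e M m x 1 - BB e M m x 2 = -RR e x := by
    have := congrArg Neg.neg h21
    rwa [neg_sub] at this
  have h20 : BB e M m x 2 - BB e M m x 0 = -((2 : ℝ) • PP e x) := by
    have := congrArg Neg.neg h02
    rwa [neg_sub] at this
  have n2 : ‖(2 : ℝ) • PP e x‖ = 2 * ‖PP e x‖ := by rw [norm_smul]; norm_num
  have e0 : (Finset.univ.erase (0 : Fin 3)) = {1, 2} := by decide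
  have e1 : (Finset.univ.erase (1 : Fin 3)) = {0, 2} := by decide
  have e2 : (Finset.univ.erase (2 : Fin 3)) = {0, 1} := by decide
  have hQP : x = QQ e x + PP e x := (QQ_add_PP e x).symm
  funext i
  fin_cases i
  · show BB e M m (force e M m x) 0 = acc ![m, M, m] (BB e M m x) 0
    rw [BB_zero, sh_force he hMm]
    unfold acc
    rw [e0, Finset.sum_pair (by decide), h10, h20, norm_neg, norm_neg, n2]
    simp only [Matrix.cons_val_zero, Matrix.cons_val_one, Matrix.cons_val]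
    unfold force
    rw [map_smul]
    have h8 : m / (2 * ‖PP e x‖) ^ 3 = (m / 8) * (1 / ‖PP e x‖ ^ 3) := by
      field_simp
      norm_num
    have h9 : M / ‖x‖ ^ 3 = M * (1 / ‖x‖ ^ 3) := by ring
    rw [h8, h9]
    module
  · show BB e M m (force e M m x) 1 = acc ![m, M, m] (BB e M m x) 1
    rw [BB_one, sh_force he hMm]
    unfold acc
    rw [e1, Finset.sum_pair (by decide), h01, h21, norm_RR he, RR_eq]
    simp only [Matrix.cons_val_zero, Matrix.cons_val_one, Matrix.cons_val]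
    have h9 : m / ‖x‖ ^ 3 = m * (1 / ‖x‖ ^ 3) := by ring
    rw [h9]
    linear_combination (norm := module) (-(m * (1 / ‖x‖ ^ 3))) • hQP
  · show BB e M m (force e M m x) 2 = acc ![m, M, m] (BB e M m x) 2
    rw [BB_two, sh_force he hMm]
    unfold acc
    rw [e2, Finset.sum_pair (by decide), h02, h12, norm_neg, n2, norm_RR he, RR_eq, RR_eq]
    simp only [Matrix.cons_val_zero, Matrix.cons_val_one, Matrix.cons_val]
    rw [QQ_force he]
    unfold force
    simp only [map_neg, map_add, map_smul, PP_QQ he, PP_PP he, smul_zero, add_zero]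
    have h8 : m / (2 * ‖PP e x‖) ^ 3 = (m / 8) * (1 / ‖PP e x‖ ^ 3) := by
      field_simp
      norm_num
    have h9 : M / ‖x‖ ^ 3 = M * (1 / ‖x‖ ^ 3) := by ring
    rw [h8, h9]
    module

end Bodies

end Pool.Agent.Lib.MP_125cfc_an
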