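import Mathlib
import Pool.Agent.Lib.MP_125cfc_an.Unique

/-!
The limit shape map and the contradiction.
-/

set_option autoImplicit false
set_option linter.unusedSectionVars false

open Set Filter Topology MeasureTheory

namespace Pool.Agent.Lib.MP_125cfc_an

/-- bi-hyperbolic solutions with their limit shapes -/
structure IsBi {E : Type*} [NormedAddCommGroup E] [NormedSpace ℝ E] {N : ℕ} (m : Fin N → ℝ)
    (γ γ' : ℝ → Fin N → E) (am ap : Fin N → E) : Prop where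
  ne : ∀ t i j, i ≠ j → γ t i ≠ γ t j
  d : ∀ t, HasDerivAt γ (γ' t) t
  d' : ∀ t, HasDerivAt γ' (acc m (γ t)) t
  nem : ∀ i j, i ≠ j → am i ≠ am j
  nep : ∀ i j, i ≠ j → ap i ≠ ap j
  top : Tendsto (fun t : ℝ => t⁻¹ • γ t) atTop (𝓝 ap)
  bot : Tendsto (fun t : ℝ => |t|⁻¹ • γ t) atBot (𝓝 am)

section
variable {E : Type*} [NormedAddCommGroup E] [InnerProductSpace ℝ E] {N : ℕ}

lemma IsBi.unique {m : Fin N → ℝ} {γ γ' η η' : ℝ → Fin N → E} {am ap bm bp : Fin N → E}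
    (h1 : IsBi m γ γ' am ap) (h2 : IsBi m η η' bm bp) (h0 : γ 0 = η 0) (h0' : γ' 0 = η' 0) :
    am = bm ∧ ap = bp := by
  have h := nbody_unique h1.ne h2.ne h1.d h1.d' h2.d h2.d' h0 h0'
  subst h
  exact ⟨tendsto_nhds_unique h1.bot h2.bot, tendsto_nhds_unique h1.top h2.top⟩

lemma exists_shape_map (m : Fin N → ℝ) :
    ∃ S : (Fin N → E) × (Fin N → E) → (Fin N → E) × (Fin N → E),
      ∀ (γ γ' : ℝ → Fin N → E) (am ap : Fin N → E), IsBi m γ γ' am ap →
        S (γ 0, γ' 0) = (am, ap) := by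
  classical
  let R : (Fin N → E) × (Fin N → E) → (Fin N → E) × (Fin N → E) → Prop := fun p q =>
    ∃ γ γ' : ℝ → Fin N → E, γ 0 = p.1 ∧ γ' 0 = p.2 ∧ IsBi m γ γ' q.1 q.2
  refine ⟨fun p => if h : ∃ q, R p q then h.choose else 0, ?_⟩
  intro γ γ' am ap h
  have hex : ∃ q, R (γ 0, γ' 0) q := ⟨(am, ap), γ, γ', rfl, rfl, h⟩
  show (if h : ∃ q, R (γ 0, γ' 0) q then h.choose else 0) = (am, ap)
  rw [dif_pos hex]
  obtain ⟨η, η', h0, h0', hb⟩ := hex.choose_spec
  have := hb.unique h h0 h0'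
  exact Prod.ext this.1 this.2

variable {a b e : E} {M m k ε : ℝ} {X V : ℝ → E} {A : E}

lemma GoodSol.isBi (fr : Frame a b e) (p : Par M m k) (h : GoodSol a b e M m ε X V A) :
    IsBi ![m, M, m] (fun t => BB e M m (X t)) (fun t => BB e M m (V t))
      (BB e M m (RR a A)) (BB e M m A) := by
  have hMm : M + 2 * m ≠ 0 := by
    have h1 := p.hM
    have h2 := p.hm
    positivity
  refine ⟨fun t => BB_ne fr.he M m (h.ne t), ?_, ?_, BB_ne fr.he M m ?_, BB_ne fr.he M m h.neA,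
    ?_, ?_⟩
  · intro t
    exact (BB e M m).hasFDerivAt.comp_hasDerivAt t (h.d t)
  · intro t
    rw [← BB_force fr.he hMm (h.ne t)]
    exact (BB e M m).hasFDerivAt.comp_hasDerivAt t (h.d' t)
  · rw [PP_RR fr.hae, ← norm_ne_zero_iff, norm_RR fr.ha, norm_ne_zero_iff]
    exact h.neA
  · have h1 := ((BB e M m).continuous.tendsto A).comp h.top
    refine h1.congr ?_
    intro t
    simp only [Function.comp, map_smul]
  · have h1 := ((BB e M m).continuous.tendsto (RR a A)).comp h.bot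
    refine h1.congr ?_
    intro t
    simp only [Function.comp, map_smul]

lemma BB_center (e : E) {M m : ℝ} (hMm : M + 2 * m ≠ 0) (x : E) :
    ∑ i, (![m, M, m] : Fin 3 → ℝ) i • BB e M m x i = 0 := by
  rw [Fin.sum_univ_three, BB_zero, BB_one, BB_two, RR_eq, sh_apply]
  simp only [Matrix.cons_val_zero, Matrix.cons_val_one, Matrix.cons_val]
  have h1 : (2 * m) • QQ e x + (M + 2 * m) • ((-(2 * m / (M + 2 * m))) • QQ e x) = 0 := by
    rw [smul_smul, ← add_smul]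
    have : 2 * m + (M + 2 * m) * -(2 * m / (M + 2 * m)) = 0 := by field_simp; ring
    rw [this, zero_smul]
  have h2 : x = QQ e x + PP e x := (QQ_add_PP e x).symm
  linear_combination (norm := module) h1 + m • h2

lemma BB_inner (fr : Frame a b e) (M m ε : ℝ) :
    ∑ i, (![m, M, m] : Fin 3 → ℝ) i *
      inner ℝ (BB e M m a i) (BB e M m (√3 • b + ε • e) i) = 0 := by
  have hea : (inner ℝ e a : ℝ) = 0 := by rw [real_inner_comm]; exact fr.hae
  have heb : (inner ℝ e b : ℝ) = 0 := by rw [real_inner_comm]; exact fr.hbe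
  have hee : (inner ℝ e e : ℝ) = 1 := by rw [real_inner_self_eq_norm_sq, fr.he]; norm_num
  have h0 : QQ e a = 0 := by rw [QQ_apply, hea, zero_smul]
  have hQ : QQ e (√3 • b + ε • e) = ε • e := by
    rw [QQ_apply, inner_add_right, inner_smul_right, inner_smul_right, heb, hee]
    simp
  have hP : PP e (√3 • b + ε • e) = √3 • b := by
    have := QQ_add_PP e (√3 • b + ε • e)
    rw [hQ] at this
    exact (eq_sub_of_add_eq' this).trans (by abel)
  rw [Fin.sum_univ_three, BB_zero, BB_one, BB_two, BB_zero, BB_one, BB_two, RR_eq, RR_eq,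
    sh_apply, sh_apply, hQ, hP, h0]
  have hPa : PP e a = a := by
    have := QQ_add_PP e a
    rwa [h0, zero_add] at this
  rw [hPa]
  simp only [smul_zero, add_zero, zero_sub, inner_zero_left, mul_zero, inner_add_right,
    inner_neg_left, inner_smul_right, inner_sub_right, fr.hab, fr.hae]
  ring

/-- the common initial data -/
noncomputable def qq (a b e : E) (M m ε : ℝ) : (Fin 3 → E) × (Fin 3 → E) :=
  (BB e M m a, BB e M m (√3 • b + ε • e))

lemma GoodSol.shape (fr : Frame a b e) (p : Par M m k) (h : GoodSol a b e M m ε X V A)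
    {S : (Fin 3 → E) × (Fin 3 → E) → (Fin 3 → E) × (Fin 3 → E)}
    (hS : ∀ (γ γ' : ℝ → Fin 3 → E) (am ap : Fin 3 → E), IsBi ![m, M, m] γ γ' am ap →
        S (γ 0, γ' 0) = (am, ap)) :
    S (qq a b e M m ε) = (BB e M m (RR a A), BB e M m A) := by
  have := hS _ _ _ _ (h.isBi fr p)
  simp only [h.x0, h.v0] at this
  exact this

theorem final_core (fr : Frame a b e) (p : Par M m k) {C ε₀ : ℝ} {Y W : ℝ → E} {A₀ : E}
    (hε₀ : 0 < ε₀) (hY : GoodSol a b e M m 0 Y W A₀)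
    (hsol : ∀ ε, |ε| ≤ ε₀ → ∃ (X V : ℝ → E) (A : E),
        GoodSol a b e M m ε X V A ∧ ‖A - A₀‖ ≤ C * ε ^ 2)
    {S : (Fin 3 → E) × (Fin 3 → E) → (Fin 3 → E) × (Fin 3 → E)}
    (hS : ∀ (γ γ' : ℝ → Fin 3 → E) (am ap : Fin 3 → E), IsBi ![m, M, m] γ γ' am ap →
        S (γ 0, γ' 0) = (am, ap))
    {P₀ S₀ : Set ((Fin 3 → E) × (Fin 3 → E))}
    (hP : ∀ ε X V A, GoodSol a b e M m ε X V A → qq a b e M m ε ∈ P₀)
    {U Wn : Set ((Fin 3 → E) × (Fin 3 → E))} (hU : IsOpen U)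
    (hpU : qq a b e M m 0 ∈ U)
    {T : (Fin 3 → E) × (Fin 3 → E) → (Fin 3 → E) × (Fin 3 → E)}
    (hT1 : ∀ q ∈ P₀ ∩ U, S q ∈ S₀ ∩ Wn ∧ T (S q) = q)
    (hT : DifferentiableOn ℝ T (S₀ ∩ Wn)) : False := by
  set L := BB e M m with hL
  set q : ℝ → (Fin 3 → E) × (Fin 3 → E) := qq a b e M m with hq
  have hqc : Continuous q := by
    have h1 : Continuous (fun ε : ℝ => L (√3 • b + ε • e)) :=
      L.continuous.comp (by fun_prop)
    exact continuous_const.prodMk h1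
  have hq0 : q 0 ∈ P₀ ∩ U := ⟨hP _ _ _ _ hY, hpU⟩
  -- estimate of the shape map
  set c₁ : ℝ := ‖L‖ * |C| with hc₁
  have hest : ∀ ε, |ε| ≤ ε₀ → ‖S (q ε) - S (q 0)‖ ≤ c₁ * ε ^ 2 := by
    intro ε hε
    obtain ⟨X, V, A, hg, hA⟩ := hsol ε hε
    rw [hg.shape fr p hS, hY.shape fr p hS, Prod.mk_sub_mk, Prod.norm_mk, ← map_sub, ← map_sub,
      ← map_sub]
    have h1 : ‖A - A₀‖ ≤ |C| * ε ^ 2 :=
      hA.trans (mul_le_mul_of_nonneg_right (le_abs_self C) (sq_nonneg ε))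
    have h2 : ‖L (RR a (A - A₀))‖ ≤ ‖L‖ * (|C| * ε ^ 2) := by
      refine (L.le_opNorm _).trans ?_
      rw [norm_RR fr.ha]
      gcongr
    have h3 : ‖L (A - A₀)‖ ≤ ‖L‖ * (|C| * ε ^ 2) := by
      refine (L.le_opNorm _).trans ?_
      gcongr
    rw [hc₁, mul_assoc]
    exact max_le h2 h3
  -- the points stay in P₀ ∩ U
  have hev1 : ∀ᶠ ε in 𝓝 (0:ℝ), |ε| ≤ ε₀ := by
    have : Metric.ball (0:ℝ) ε₀ ∈ 𝓝 (0:ℝ) := Metric.ball_mem_nhds _ hε₀
    filter_upwards [this] with ε hε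
    rw [Metric.mem_ball, Real.dist_eq, sub_zero] at hε
    exact hε.le
  have hev2 : ∀ᶠ ε in 𝓝 (0:ℝ), q ε ∈ P₀ ∩ U := by
    have h1 : ∀ᶠ ε in 𝓝 (0:ℝ), q ε ∈ U := hqc.continuousAt.eventually (hU.mem_nhds hpU)
    filter_upwards [hev1, h1] with ε hε hεU
    obtain ⟨X, V, A, hg, _⟩ := hsol ε hε
    exact ⟨hP _ _ _ _ hg, hεU⟩
  have htend : Tendsto (fun ε => S (q ε)) (𝓝 (0:ℝ)) (𝓝[S₀ ∩ Wn] (S (q 0))) := by
    rw [tendsto_nhdsWithin_iff]
    refine ⟨?_, ?_⟩
    · rw [tendsto_iff_norm_sub_tendsto_zero]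
      have h1 : Tendsto (fun ε : ℝ => c₁ * ε ^ 2) (𝓝 0) (𝓝 0) := by
        have : Continuous (fun ε : ℝ => c₁ * ε ^ 2) := by fun_prop
        simpa using this.tendsto 0
      refine squeeze_zero' (Eventually.of_forall fun _ => norm_nonneg _) ?_ h1
      filter_upwards [hev1] with ε hε using hest ε hε
    · filter_upwards [hev2] with ε hε using (hT1 _ hε).1
  have hO := (hT (S (q 0)) (hT1 _ hq0).1).hasFDerivWithinAt.isBigO_sub.comp_tendsto htend
  obtain ⟨c, hc⟩ := hO.bound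
  set β : ℝ := ‖L e‖ with hβ
  have hβpos : 0 < β := by
    rw [hβ, norm_pos_iff]
    intro h0
    have h1 := congrFun h0 1
    have h2 := congrFun h0 0
    rw [hL, BB_one] at h1
    rw [hL, BB_zero, h1] at h2
    simp only [Pi.zero_apply, add_zero] at h2
    have := fr.he
    rw [h2, norm_zero] at this
    exact zero_ne_one this
  have hdiff : ∀ ε, ‖q ε - q 0‖ = |ε| * β := by
    intro ε
    have : q ε - q 0 = (0, ε • L e) := by
      simp only [hq, qq, Prod.mk_sub_mk, sub_self, zero_smul, add_zero, ← map_sub, ← map_smul]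
      congr 2
      abel
    rw [this, Prod.norm_mk, norm_zero, norm_smul, Real.norm_eq_abs, hβ]
    exact max_eq_right (by positivity)
  have hfin : ∀ᶠ ε in 𝓝[>] (0:ℝ), β ≤ |c| * c₁ * ε := by
    have h1 := hev1.filter_mono (nhdsWithin_le_nhds (s := Ioi (0:ℝ)))
    have h2 := hev2.filter_mono (nhdsWithin_le_nhds (s := Ioi (0:ℝ)))
    have h3 := hc.filter_mono (nhdsWithin_le_nhds (s := Ioi (0:ℝ)))
    filter_upwards [h1, h2, h3, self_mem_nhdsWithin] with ε hε1 hε2 hε3 hε4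
    have hpos : 0 < ε := hε4
    simp only [Function.comp] at hε3
    rw [(hT1 _ hε2).2, (hT1 _ hq0).2, hdiff, abs_of_pos hpos] at hε3
    have h5 := hest ε hε1
    have h6 : ε * β ≤ |c| * (c₁ * ε ^ 2) := by
      refine hε3.trans ?_
      calc c * ‖S (q ε) - S (q 0)‖ ≤ |c| * ‖S (q ε) - S (q 0)‖ := by
            gcongr; exact le_abs_self c
        _ ≤ |c| * (c₁ * ε ^ 2) := by gcongr
    have h7 : ε * β ≤ ε * (|c| * c₁ * ε) := by
      calc ε * β ≤ |c| * (c₁ * ε ^ 2) := h6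
        _ = ε * (|c| * c₁ * ε) := by ring
    exact le_of_mul_le_mul_left h7 hpos
  have hlim : Tendsto (fun ε : ℝ => |c| * c₁ * ε) (𝓝[>] 0) (𝓝 0) := by
    have : Continuous (fun ε : ℝ => |c| * c₁ * ε) := by fun_prop
    have h := (this.tendsto 0).mono_left (nhdsWithin_le_nhds (s := Ioi (0:ℝ)))
    simpa using h
  have := ge_of_tendsto hlim hfin
  linarith

end

end Pool.Agent.Lib.MP_125cfc_an
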